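import Pool.Agent.Lib.H44UB.G1

/-!
# H44UB, chunk G2 (M): one term of Heath-Brown's identity (old proof: `HUK/BH5.lean`)
-/

open Finset

namespace Pool.Agent.H44UB

open Pool.Agent.HUK
open Pool.Agent.H16U
open Pool.Agent.Lib.H81A (af muV one1 logf)

/-- The general list product. -/
private theorem g2_list {N : ℕ} {M : ℝ} (A D z : ℕ) (hM : 1 ≤ M) (hmu : BD N 1 M (muV z)) (hs : BD N 1 M (fS A D))
    (ho : BD N 1 M one1) (a b c : ℕ) (t : List (ArithmeticFunction ℝ)) (ht : ∀ g ∈ t, BD N 1 M g) (K : ℕ)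
    (hK : a + b + c + t.length ≤ K) :
    BD N K (M ^ K) (muV z ^ a * fS A D ^ b * one1 ^ c * t.prod) := by
  have h1 : muV z ^ a * fS A D ^ b * one1 ^ c * t.prod =
      (List.replicate a (muV z) ++ List.replicate b (fS A D) ++ List.replicate c one1 ++ t).prod := by
    simp [List.prod_append, List.prod_replicate, mul_assoc]
  have h2 : ∀ g ∈ (List.replicate a (muV z) ++ List.replicate b (fS A D) ++ List.replicate c one1 ++ t), BD N 1 M g := by
    intro g hg
    simp only [List.mem_append, List.mem_replicate] at hg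
    rcases hg with ((⟨_, rfl⟩ | ⟨_, rfl⟩) | ⟨_, rfl⟩) | hg
    · exact hmu
    · exact hs
    · exact ho
    · exact ht g hg
  have h3 := BD_list (by linarith) _ h2
  have h4 : (List.replicate a (muV z) ++ List.replicate b (fS A D) ++ List.replicate c one1 ++ t).length ≤ K := by
    simp only [List.length_append, List.length_replicate]
    exact hK
  rw [h1]
  exact BD.mono h3 h4 (pow_le_pow_right₀ hM h4) (by positivity)

/-- Proof. As `HUK.hb_term` (`HUK/BH5.lean`, adapt `bh5_list` there: `muV z ^ a * fS A D ^ b * one1 ^ c * t.prod` is a product of `a + b + c + t.length ≤ K = 2J+2` factors in `BD N 1 M`, so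
it is in `BD N K (M^K)` by `BD_list` / `BD_pow`, `BD_mul`, `BD.mono`). `bh_alg` with `m = muV z ^ (j + 1)`, `s = fS A D`, `o = one1`, `u = fU A`, `v = fV A D`, `e = fE A D`, `L = logf`,
`sl = fSL A D`, `ul = fUL A`, `vl = fVL A D`, `el = fEL A D` (`one_split`, `log_split`), then `LF_add`, `LF_sum`, `norm_add_le`, `norm_sum_le`. Terms:
(1) `muV z ^ (j+1) * fS ^ j * fSL = 1 * l.prod`, length `2j+2`: `greedyU` with `S = 1`, `a = 0` (`BD_unit`), `t2` of `greedyU` from `hyp.t2` as `lo ≤ T < n ≤ T Y ≤ hi`: at most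
`(2j+2) E + T M^K QQ^K 4X`. (2) `fUL * G`, `fU * G`: `hyp.t2` with `F = fUL A`, `fU A` (`hz.u`, `hz.ul`, `hz.us`, `BD.mono` from `1` to `K`), `G * fEL`: `hyp.el`; `G` a product of at most `2j+2 ≤ K` factors: `E` each.
(3) for `i < j`: `u * G` and `G * e` with `G` a product of at most `2j+2` factors: `2E`. Sum: `(2j+2+3+2j) E + ...`, and `E ≥ 0` (`hyp.e` for `G = 0`). -/
theorem hb_termU (X k : ℕ) (f : ℕ → ℤ → ℂ) (hf : ∀ j, j < k → Bdd X (f j)) (A D z J j : ℕ) (hj : j < J) (T Y M lo hi E : ℝ)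
    (hT : 1 ≤ T) (hlo : lo ≤ T) (hhi : T * Y ≤ hi) (hyp : HypU X k f A D (2 * J + 2) (M ^ (2 * J + 2)) lo hi E)
    (hz : SizU (2 * k * X) A D z Y M lo hi) :
    ‖LF X k f (muV z ^ (j + 1) * one1 ^ j * logf)‖ ≤
      (4 * J + 5) * E + T * M ^ (2 * J + 2) * QQ (2 * k * X) ^ (2 * J + 2) * (4 * X) := by
  have hM := hz.M1
  obtain ⟨B, hB⟩ : ∃ B, B = M ^ (2 * J + 2) := ⟨_, rfl⟩
  have hB1 : 1 ≤ B := by
    rw [hB]
    exact one_le_pow₀ hM
  have hMB : M ≤ B := by
    rw [hB]
    calc M = M ^ 1 := (pow_one M).symm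
      _ ≤ M ^ (2 * J + 2) := pow_le_pow_right₀ hM (by omega)
  rw [← hB] at hyp ⊢
  have hX0 : (0 : ℝ) ≤ X := Nat.cast_nonneg X
  have hE : 0 ≤ E := by
    refine le_trans (norm_nonneg _) (hyp.e 0 ?_)
    intro n _ _
    have := tau_nonneg (2 * J + 2) n
    rw [ArithmeticFunction.zero_apply, abs_zero]
    positivity
  have hlist : ∀ (a b c : ℕ) (t : List (ArithmeticFunction ℝ)), (∀ g ∈ t, BD (2 * k * X) 1 M g) →
      a + b + c + t.length ≤ 2 * J + 2 → BD (2 * k * X) (2 * J + 2) B (muV z ^ a * fS A D ^ b * one1 ^ c * t.prod) := by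
    intro a b c t ht hK
    rw [hB]
    exact g2_list A D z hM hz.mu.1 hz.s.1 hz.one a b c t ht (2 * J + 2) hK
  have hu : ∀ G, BD (2 * k * X) (2 * J + 2) B G → ‖LF X k f (fU A * G)‖ ≤ E := fun G hG =>
    hyp.t2 _ _ (BD.mono hz.u (by omega) hMB (by linarith)) hG fun n h1 h2 h3 => hz.us n h1 h2 (Or.inl h3)
  have hul : ∀ G, BD (2 * k * X) (2 * J + 2) B G → ‖LF X k f (fUL A * G)‖ ≤ E := fun G hG =>
    hyp.t2 _ _ (BD.mono hz.ul (by omega) hMB (by linarith)) hG fun n h1 h2 h3 => hz.us n h1 h2 (Or.inr h3)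
  have halg := bh_alg (muV z ^ (j + 1)) (fS A D) one1 (fU A) (fV A D) (fE A D) logf (fSL A D) (fUL A) (fVL A D) (fEL A D) j
    (one_split A D hz.S) (log_split A D hz.S)
  have t1 : ‖LF X k f (muV z ^ (j + 1) * fS A D ^ j * fSL A D)‖ ≤ (2 * j + 2) * E + T * B * QQ (2 * k * X) ^ (2 * J + 2) * (4 * X) := by
    have h1 : muV z ^ (j + 1) * fS A D ^ j * fSL A D =
        1 * (List.replicate (j + 1) (muV z) ++ List.replicate j (fS A D) ++ [fSL A D]).prod := by
      simp [List.prod_append, List.prod_replicate, mul_assoc]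
    have h2 := greedyU X k f hf T Y E M (2 * J + 2) hT hM (by
        rw [← hB]
        intro F G hF hG hs
        exact hyp.t2 F G hF hG fun n h1 h2 h3 => ⟨hlo.trans (hs n h1 h2 h3).1.le, (hs n h1 h2 h3).2.trans hhi⟩)
      (List.replicate (j + 1) (muV z) ++ List.replicate j (fS A D) ++ [fSL A D]) 1 0 ?_ ?_ ?_ ?_
    · rw [h1]
      rw [← hB] at h2
      refine le_trans h2 (le_of_eq ?_)
      simp only [List.length_append, List.length_replicate, List.length_cons, List.length_nil]
      push_cast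
      ring
    · intro g hg
      simp only [List.mem_append, List.mem_replicate, List.mem_singleton] at hg
      rcases hg with (⟨_, rfl⟩ | ⟨_, rfl⟩) | rfl
      · exact hz.mu
      · exact hz.s
      · exact hz.sl
    · rw [pow_zero]
      exact BD_unit _
    · intro n hn _ hne
      rw [ArithmeticFunction.one_apply] at hne
      by_cases h : n = 1
      · rw [h]
        simpa using hT
      · rw [if_neg h] at hne
        exact absurd rfl hne
    · simp only [List.length_append, List.length_replicate, List.length_cons, List.length_nil]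
      omega
  have t2 : ‖LF X k f (fUL A * (muV z ^ (j + 1) * fS A D ^ j * fV A D))‖ ≤ E := by
    refine hul _ ?_
    have h := hlist (j + 1) j 0 [fV A D] (by simpa using hz.v) (by simp only [List.length_cons, List.length_nil]; omega)
    simpa using h
  have t3 : ‖LF X k f (fU A * (muV z ^ (j + 1) * fS A D ^ j * fVL A D))‖ ≤ E := by
    refine hu _ ?_
    have h := hlist (j + 1) j 0 [fVL A D] (by simpa using hz.vl) (by simp only [List.length_cons, List.length_nil]; omega)
    simpa using h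
  have t4 : ‖LF X k f (muV z ^ (j + 1) * fS A D ^ j * fEL A D)‖ ≤ E := by
    refine hyp.el _ ?_
    have h := hlist (j + 1) j 0 [] (by simp) (by simp only [List.length_nil]; omega)
    simpa using h
  have t5 : ∀ i ∈ range j, ‖LF X k f (fU A * (muV z ^ (j + 1) * fS A D ^ i * one1 ^ (j - 1 - i) * logf * fV A D) +
      muV z ^ (j + 1) * fS A D ^ i * one1 ^ (j - 1 - i) * logf * fE A D)‖ ≤ 2 * E := by
    intro i hi
    have hi' := Finset.mem_range.1 hi
    rw [LF_add]
    have h5 : ‖LF X k f (fU A * (muV z ^ (j + 1) * fS A D ^ i * one1 ^ (j - 1 - i) * logf * fV A D))‖ ≤ E := by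
      refine hu _ ?_
      have h := hlist (j + 1) i (j - 1 - i) [logf, fV A D] (by
        intro g hg
        simp only [List.mem_cons, List.not_mem_nil, or_false] at hg
        rcases hg with rfl | rfl
        · exact hz.log
        · exact hz.v) (by simp only [List.length_cons, List.length_nil]; omega)
      have e : muV z ^ (j + 1) * fS A D ^ i * one1 ^ (j - 1 - i) * [logf, fV A D].prod =
          muV z ^ (j + 1) * fS A D ^ i * one1 ^ (j - 1 - i) * logf * fV A D := by
        simp only [List.prod_cons, List.prod_nil, mul_one, mul_assoc]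
      rwa [e] at h
    have h6 : ‖LF X k f (muV z ^ (j + 1) * fS A D ^ i * one1 ^ (j - 1 - i) * logf * fE A D)‖ ≤ E := by
      refine hyp.e _ ?_
      have h := hlist (j + 1) i (j - 1 - i) [logf] (by
        intro g hg
        simp only [List.mem_cons, List.not_mem_nil, or_false] at hg
        rw [hg]
        exact hz.log) (by simp only [List.length_cons, List.length_nil]; omega)
      have e : muV z ^ (j + 1) * fS A D ^ i * one1 ^ (j - 1 - i) * [logf].prod =
          muV z ^ (j + 1) * fS A D ^ i * one1 ^ (j - 1 - i) * logf := by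
        simp only [List.prod_cons, List.prod_nil, mul_one]
      rwa [e] at h
    calc _ ≤ ‖LF X k f (fU A * (muV z ^ (j + 1) * fS A D ^ i * one1 ^ (j - 1 - i) * logf * fV A D))‖ +
          ‖LF X k f (muV z ^ (j + 1) * fS A D ^ i * one1 ^ (j - 1 - i) * logf * fE A D)‖ := norm_add_le _ _
      _ ≤ 2 * E := by linarith
  have t6 : ‖LF X k f (∑ i ∈ range j, (fU A * (muV z ^ (j + 1) * fS A D ^ i * one1 ^ (j - 1 - i) * logf * fV A D) +
      muV z ^ (j + 1) * fS A D ^ i * one1 ^ (j - 1 - i) * logf * fE A D))‖ ≤ j * (2 * E) := by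
    rw [LF_sum]
    refine le_trans (norm_sum_le _ _) ?_
    refine le_trans (Finset.sum_le_sum t5) ?_
    rw [Finset.sum_const, Finset.card_range, nsmul_eq_mul]
  rw [halg, LF_add, LF_add, LF_add, LF_add]
  have hjJ : (j : ℝ) ≤ J := by exact_mod_cast hj.le
  calc _ ≤ ‖LF X k f (muV z ^ (j + 1) * fS A D ^ j * fSL A D)‖ +
        ‖LF X k f (fUL A * (muV z ^ (j + 1) * fS A D ^ j * fV A D))‖ +
        ‖LF X k f (fU A * (muV z ^ (j + 1) * fS A D ^ j * fVL A D))‖ +
        ‖LF X k f (muV z ^ (j + 1) * fS A D ^ j * fEL A D)‖ +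
        ‖LF X k f (∑ i ∈ range j, (fU A * (muV z ^ (j + 1) * fS A D ^ i * one1 ^ (j - 1 - i) * logf * fV A D) +
          muV z ^ (j + 1) * fS A D ^ i * one1 ^ (j - 1 - i) * logf * fE A D))‖ := by
          refine le_trans (norm_add_le _ _) (add_le_add_left ?_ _)
          refine le_trans (norm_add_le _ _) (add_le_add_left ?_ _)
          refine le_trans (norm_add_le _ _) (add_le_add_left ?_ _)
          exact norm_add_le _ _
    _ ≤ (2 * j + 2) * E + T * B * QQ (2 * k * X) ^ (2 * J + 2) * (4 * X) + E + E + E + j * (2 * E) := by linarith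
    _ = (4 * j + 5) * E + T * B * QQ (2 * k * X) ^ (2 * J + 2) * (4 * X) := by ring
    _ ≤ (4 * J + 5) * E + T * B * QQ (2 * k * X) ^ (2 * J + 2) * (4 * X) := by nlinarith

end Pool.Agent.H44UB
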