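import Pool.Agent.Lib.H44UB.Defs

/-!
# H44UB, chunk N4 (S/M): prime powers
-/

open Finset

namespace Pool.Agent.H44UB

open Pool.Agent.HUK
open Pool.Agent.H16U
open Pool.Agent.Lib.H81A (af muV one1 logf)
open Pool.Agent.Lib.H68T (lp)

/-- Proof. `√(2kX) ≤ √(X²) ...`: `2kX ≤ w X` (`2 k ≤ 2^(2^(20k)) ≤ w`), `log (2kX) ≤ w^1001` (`h.lN`), so the left side is `≤ 2 √w X^(1/2) w^1001 4 X ≤ 8 w^1002 X^(3/2)` and `8 w^1002 ≤ exp (w^1000/4) = X^(1/4)` (`X = exp (w^1000)`: `Real.exp_log`; `8 ≤ exp 3`,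
`w^1002 ≤ exp (1002 w)`, `3 + 1002 w ≤ w^1000/4` for `w ≥ 1048576`: `big` gives `w ≥ 2^(2^20)`). -/
theorem n4_num {k X : ℕ} {w : ℝ} (hk : 1 ≤ k) (h : WW k X w) :
    2 * √((2 * k * X : ℕ) : ℝ) * Real.log ((2 * k * X : ℕ) : ℝ) * (4 * X) ≤ (X : ℝ) ^ (7 / 4 : ℝ) := by
  have hX0 : (0 : ℝ) < X := by
    have := h.X1
    exact_mod_cast this
  -- `20 k ≤ 2 ^ (20 k)`
  have n1 : 20 * k ≤ 2 ^ (20 * k) := Nat.lt_two_pow_self.le
  have n2 : 2 ^ (20 * k) ≤ 2 ^ (2 ^ (20 * k)) := Nat.pow_le_pow_right (by norm_num) n1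
  have hkw : 2 * (k : ℝ) ≤ w := by
    refine le_trans ?_ h.big
    have : 2 * k ≤ 2 ^ (2 ^ (20 * k)) := le_trans (by omega) (n1.trans n2)
    exact_mod_cast this
  have hw20 : (2 : ℝ) ^ 20 ≤ w := by
    refine le_trans ?_ h.big
    exact pow_le_pow_right₀ (by norm_num) (le_trans (by omega) n1)
  have hw : (1048576 : ℝ) ≤ w := by
    have : (2 : ℝ) ^ 20 = 1048576 := by norm_num
    rw [this] at hw20
    exact hw20
  have hw1 : 1 ≤ w := by linarith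
  have hw0 : 0 ≤ w := by linarith
  -- the square root
  have e1 : ((2 * k * X : ℕ) : ℝ) = 2 * k * X := by push_cast; ring
  have hk1 : (1 : ℝ) ≤ k := by exact_mod_cast hk
  have hs : √(2 * (k : ℝ) * X) ≤ w * √(X : ℝ) := by
    have h1 : √(2 * (k : ℝ) * X) ≤ √(w ^ 2 * X) := by
      apply Real.sqrt_le_sqrt
      refine mul_le_mul_of_nonneg_right ?_ hX0.le
      nlinarith
    rwa [Real.sqrt_mul (sq_nonneg w), Real.sqrt_sq hw0] at h1
  have hlog0 : 0 ≤ Real.log (2 * (k : ℝ) * X) := by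
    apply Real.log_nonneg
    have hX1 : (1 : ℝ) ≤ X := by exact_mod_cast h.X1
    nlinarith
  -- the main inequality
  have hm : 8 * w ^ 1002 ≤ (X : ℝ) ^ (1 / 4 : ℝ) := by
    have h1 : (X : ℝ) ^ (1 / 4 : ℝ) = Real.exp (w ^ 1000 / 4) := by
      rw [Real.rpow_def_of_pos hX0, h.L]
      congr 1
      ring
    rw [h1]
    have h2 : (8 : ℝ) ≤ Real.exp 3 := by
      have := Real.add_one_le_exp (1 : ℝ)
      have e3 : Real.exp 3 = Real.exp 1 ^ 3 := by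
        rw [← Real.exp_nat_mul]
        norm_num
      rw [e3]
      have h2 : (2 : ℝ) ≤ Real.exp 1 := by linarith
      calc (8 : ℝ) = 2 ^ 3 := by norm_num
        _ ≤ Real.exp 1 ^ 3 := by gcongr
    have h3 : w ^ 1002 ≤ Real.exp (1002 * w) := by
      have h4 : w ≤ Real.exp w := by linarith [Real.add_one_le_exp w]
      have e4 : Real.exp (1002 * w) = Real.exp w ^ 1002 := by
        rw [← Real.exp_nat_mul]
        norm_num
      rw [e4]
      exact pow_le_pow_left₀ hw0 h4 _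
    have h5 : 3 + 1002 * w ≤ w ^ 1000 / 4 := by
      have h6 : w ^ 2 ≤ w ^ 1000 := pow_le_pow_right₀ hw1 (by norm_num)
      nlinarith
    calc 8 * w ^ 1002 ≤ Real.exp 3 * Real.exp (1002 * w) := by gcongr
      _ = Real.exp (3 + 1002 * w) := (Real.exp_add _ _).symm
      _ ≤ _ := Real.exp_le_exp.2 h5
  have e2 : (X : ℝ) ^ (7 / 4 : ℝ) = X * √(X : ℝ) * (X : ℝ) ^ (1 / 4 : ℝ) := by
    rw [Real.sqrt_eq_rpow]
    nth_rewrite 2 [← Real.rpow_one (X : ℝ)]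
    rw [← Real.rpow_add hX0, ← Real.rpow_add hX0]
    norm_num
  have hw1001 : (0 : ℝ) ≤ w ^ 1001 := pow_nonneg hw0 _
  rw [e1, e2]
  have hXs : 0 ≤ X * √(X : ℝ) := by positivity
  calc 2 * √(2 * (k : ℝ) * X) * Real.log (2 * k * X) * (4 * X)
      ≤ 2 * (w * √(X : ℝ)) * w ^ 1001 * (4 * X) := by
        refine mul_le_mul_of_nonneg_right (mul_le_mul ?_ h.lN hlog0 (by positivity)) (by positivity)
        linarith
    _ = X * √(X : ℝ) * (8 * w ^ 1002) := by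
        rw [show (1002 : ℕ) = 1001 + 1 from rfl, pow_succ w 1001]
        ring
    _ ≤ _ := mul_le_mul_of_nonneg_left hm hXs

/-- Proof. As `HUK.bh_lp` (`HUK/BH8.lean`) with `n4_num` instead of `bh8_num` (`bh8_prime_powers` is there). -/
theorem lpU {k X : ℕ} {w : ℝ} (hk : 1 ≤ k) (h : WW k X w) (f : ℕ → ℤ → ℂ) (hf : ∀ j, j < k → Bdd X (f j)) :
    ‖(∑ n ∈ Icc 1 (2 * k * X), ((lp n : ℝ) : ℂ) * Psi X k f n) - LF X k f ArithmeticFunction.vonMangoldt‖ ≤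
      (X : ℝ) ^ (7 / 4 : ℝ) := by
  have hX1 : 1 ≤ X := h.X1
  refine le_trans ?_ (n4_num hk h)
  have hN : 1 ≤ 2 * k * X := Nat.one_le_iff_ne_zero.mpr (by positivity)
  have h1 := bh8_prime_powers (2 * k * X) hN
  have h2 : (0 : ℝ) ≤ 4 * X := by positivity
  refine le_trans ?_ (mul_le_mul_of_nonneg_right h1 h2)
  rw [LF, ← Finset.sum_sub_distrib, Finset.sum_mul]
  refine (norm_sum_le _ _).trans (Finset.sum_le_sum fun n _ => ?_)
  rw [← sub_mul, norm_mul, ← Complex.ofReal_sub, Complex.norm_real, Real.norm_eq_abs, abs_sub_comm,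
    abs_of_nonneg (by linarith [Pool.Agent.Lib.H68T.BPS_lp_le n])]
  exact mul_le_mul_of_nonneg_left (psi_bd X k f hf n) (by linarith [Pool.Agent.Lib.H68T.BPS_lp_le n])

end Pool.Agent.H44UB
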