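import Pool.Agent.Lib.H44UB.Defs

/-!
# H44UB, chunk N1 (M): sizes of `A`, `D`, powers of `X`
-/

open Finset

namespace Pool.Agent.H44UB

open Pool.Agent.HUK
open Pool.Agent.H16U
open Pool.Agent.Lib.H81A (af muV one1 logf)

private theorem n1_w100 {k X : ℕ} {w : ℝ} (hk : 1 ≤ k) (h : WW k X w) : (100 : ℝ) ≤ w := by
  refine le_trans ?_ h.big
  have h1 : 7 ≤ 2 ^ (20 * k) := by
    have h2 : 2 ^ 3 ≤ 2 ^ (20 * k) := Nat.pow_le_pow_right (by norm_num) (by omega)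
    omega
  have h3 : (2 : ℝ) ^ 7 ≤ (2 : ℝ) ^ (2 ^ (20 * k)) := pow_le_pow_right₀ (by norm_num) h1
  refine le_trans ?_ h3
  norm_num

private theorem n1_pw {w : ℝ} (h : 100 ≤ w) {a b : ℕ} (hab : a < b) : 100 * w ^ a ≤ w ^ b := by
  have h0 : (0 : ℝ) ≤ w ^ a := pow_nonneg (by linarith) a
  have h1 : w ^ (a + 1) ≤ w ^ b := pow_le_pow_right₀ (by linarith) hab
  have h2 : w ^ (a + 1) = w ^ a * w := pow_succ w a
  nlinarith

private theorem n1_one {w : ℝ} (h : 100 ≤ w) (a : ℕ) : 1 ≤ w ^ a := one_le_pow₀ (by linarith)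

/-- `X = exp (w^1000)`. Proof. `Real.exp_log`. -/
theorem n1_X {k X : ℕ} {w : ℝ} (h : WW k X w) : (X : ℝ) = Real.exp (w ^ 1000) := by
  have h1 : (0 : ℝ) < X := by exact_mod_cast h.X1
  rw [← h.L, Real.exp_log h1]

/-- Proof. `2^m` powers: `(1/2)^(2^(k-1)+4) * 2^(2^(k-1)+8) = 2^4`. -/
theorem n1_cs (k : ℕ) : cs k * JJ k = 16 := by
  unfold cs JJ
  push_cast
  rw [one_div, inv_pow]
  have h : (2 : ℝ) ^ (2 ^ (k - 1) + 8) = 2 ^ (2 ^ (k - 1) + 4) * 16 := by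
    rw [pow_add, pow_add]
    ring
  rw [h, inv_mul_cancel_left₀ (pow_ne_zero _ (by norm_num))]

/-- Proof. `KK k = 2 * 2^(2^(k-1)+8) + 2 ≤ 2^(2^(k-1)+10) ≤ 2^(2^(20k))`, as `2^(k-1) + 10 ≤ 2^(20 k)` for `k ≥ 1`. -/
theorem n1_K {k X : ℕ} {w : ℝ} (hk : 1 ≤ k) (h : WW k X w) : (KK k : ℝ) ≤ w := by
  refine le_trans ?_ h.big
  have h1 : 2 ^ (k - 1) + 10 ≤ 2 ^ (20 * k) := by
    have e : 20 * k = (k - 1) + (19 * k + 1) := by omega
    rw [e, pow_add]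
    have h2 : 2 ^ 4 ≤ 2 ^ (19 * k + 1) := Nat.pow_le_pow_right (by norm_num) (by omega)
    have h3 : 1 ≤ 2 ^ (k - 1) := Nat.one_le_two_pow
    nlinarith
  have h4 : KK k ≤ 2 ^ (2 ^ (k - 1) + 10) := by
    unfold KK JJ
    have h5 : 1 ≤ 2 ^ (2 ^ (k - 1) + 8) := Nat.one_le_two_pow
    have h6 : 2 ^ (2 ^ (k - 1) + 10) = 4 * 2 ^ (2 ^ (k - 1) + 8) := by
      rw [pow_add, pow_add]
      ring
    omega
  have h7 : KK k ≤ 2 ^ (2 ^ (20 * k)) := h4.trans (Nat.pow_le_pow_right (by norm_num) h1)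
  exact_mod_cast h7

private theorem n1_k {k X : ℕ} {w : ℝ} (hk : 1 ≤ k) (h : WW k X w) : (k : ℝ) ≤ w := by
  refine le_trans ?_ (n1_K hk h)
  have h1 : k ≤ KK k := by
    unfold KK JJ
    have h2 : k - 1 < 2 ^ (k - 1) := Nat.lt_two_pow_self
    have h3 : 2 ^ (k - 1) + 8 < 2 ^ (2 ^ (k - 1) + 8) := Nat.lt_two_pow_self
    omega
  exact_mod_cast h1

/-- Proof. `A ≥ exp(w^500)/2 ≥ w ≥ 2^(2^(20k))`; `4k(A+1) ≤ 8 k A ≤ w exp(w^500) * 2 ≤ exp(w^600)/2 ≤ D` (`w ≥ 100`; `w ≤ exp w`, `w + w^500 + 2 ≤ w^600`; inequality in `ℝ`, then `exact_mod_cast`). -/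
theorem n1_A {k X : ℕ} {w : ℝ} (hk : 1 ≤ k) (h : WW k X w) : 2 ≤ AX X ∧ k ≤ AX X ∧ 4 * k * (AX X + 1) ≤ DX X := by
  have hw := n1_w100 hk h
  have hkw := n1_k hk h
  have h500 : 100 * w ^ 1 ≤ w ^ 500 := n1_pw hw (by norm_num)
  have h600 : 100 * w ^ 500 ≤ w ^ 600 := n1_pw hw (by norm_num)
  rw [pow_one] at h500
  have hA : w ≤ AX X := by
    have h1 := Real.add_one_le_exp (w ^ 500)
    have h2 := h.A1
    linarith
  have hk0 : (0 : ℝ) ≤ k := Nat.cast_nonneg k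
  refine ⟨?_, ?_, ?_⟩
  · have h3 : ((2 : ℕ) : ℝ) ≤ (AX X : ℝ) := by
      push_cast
      linarith
    exact_mod_cast h3
  · exact_mod_cast hkw.trans hA
  · have h4 : ((4 * k * (AX X + 1) : ℕ) : ℝ) ≤ (DX X : ℝ) := by
      push_cast
      have h5 : 4 * (k : ℝ) * ((AX X : ℝ) + 1) ≤ 8 * w * Real.exp (w ^ 500) := by
        have h6 : (AX X : ℝ) + 1 ≤ 2 * Real.exp (w ^ 500) := by
          have h7 := h.A2
          linarith
        calc 4 * (k : ℝ) * ((AX X : ℝ) + 1) ≤ 4 * w * (2 * Real.exp (w ^ 500)) := by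
              apply mul_le_mul _ h6 (by positivity) (by positivity)
              linarith
          _ = 8 * w * Real.exp (w ^ 500) := by ring
      have h8 : 16 * w ≤ Real.exp w := by
        have h9 := Real.quadratic_le_exp_of_nonneg (x := w) (by linarith)
        nlinarith
      have h10 : Real.exp w * Real.exp (w ^ 500) ≤ Real.exp (w ^ 600) := by
        rw [← Real.exp_add]
        apply Real.exp_le_exp.mpr
        linarith
      have h11 := h.D1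
      have h12 : 16 * w * Real.exp (w ^ 500) ≤ Real.exp w * Real.exp (w ^ 500) :=
        mul_le_mul_of_nonneg_right h8 (Real.exp_pos _).le
      nlinarith
    exact_mod_cast h4

private theorem n1_Xpow {k X : ℕ} {w : ℝ} (h : WW k X w) (c : ℝ) : (X : ℝ) ^ c = Real.exp (w ^ 1000 * c) := by
  rw [n1_X h, ← Real.exp_mul]

private theorem n1_csw {k X : ℕ} {w : ℝ} (hk : 1 ≤ k) (h : WW k X w) : 16 * w ^ 999 ≤ w ^ 1000 * cs k := by
  have hw := n1_w100 hk h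
  have hJ : (JJ k : ℝ) ≤ w := by
    refine le_trans ?_ (n1_K hk h)
    have h1 : JJ k ≤ KK k := by
      unfold KK
      omega
    exact_mod_cast h1
  have hcs := n1_cs k
  have hc0 : 0 < cs k := by
    unfold cs
    positivity
  have h2 : 16 ≤ cs k * w := by
    rw [← hcs]
    exact mul_le_mul_of_nonneg_left hJ hc0.le
  have h3 : (0 : ℝ) ≤ w ^ 999 := pow_nonneg (by linarith) _
  calc 16 * w ^ 999 ≤ (cs k * w) * w ^ 999 := mul_le_mul_of_nonneg_right h2 h3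
    _ = w ^ 1000 * cs k := by ring

private theorem n1_cs1 (k : ℕ) : cs k ≤ 1 := by
  unfold cs
  exact pow_le_one₀ (by norm_num) (by norm_num)

private theorem n1_cs0 (k : ℕ) : 0 < cs k := by
  unfold cs
  positivity

private theorem n1_four : (4 : ℝ) ≤ Real.exp 2 := by
  have h1 := Real.quadratic_le_exp_of_nonneg (x := 2) (by norm_num)
  linarith

/-- Proof. `X^(cs k/8) = exp (w^1000 cs k / 8)` (`n1_X`, `Real.exp_mul` / `Real.rpow_def_of_pos`), and `cs k = 16 / JJ k ≥ 16 / w` (`n1_cs`, `n1_K`), so it is `≥ exp (2 w^999) ≥ exp (2 + w^600) ≥ 4 D` (`4 ≤ exp 2`). -/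
theorem n1_Y {k X : ℕ} {w : ℝ} (hk : 1 ≤ k) (h : WW k X w) : 4 * (DX X : ℝ) ≤ (X : ℝ) ^ (cs k / 8) := by
  have hw := n1_w100 hk h
  have h1 := n1_csw hk h
  have h2 : 100 * w ^ 600 ≤ w ^ 999 := n1_pw hw (by norm_num)
  have h3 := n1_one hw 600
  rw [n1_Xpow h]
  calc 4 * (DX X : ℝ) ≤ Real.exp 2 * Real.exp (w ^ 600) :=
        mul_le_mul n1_four h.D2 (Nat.cast_nonneg _) (Real.exp_pos _).le
    _ = Real.exp (2 + w ^ 600) := by rw [Real.exp_add]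
    _ ≤ Real.exp (w ^ 1000 * (cs k / 8)) := by
        apply Real.exp_le_exp.mpr
        linarith

/-- Proof. `z + 1 > X^(cs k/8)` (`Nat.lt_floor_add_one`), so `(z+1)^J > X^(cs k J/8) = X^2 ≥ 2kX` (`n1_cs`, `h.kX`; `Real.rpow_natCast`, `Real.rpow_mul`; `JJ k ≠ 0`). -/
theorem n1_z {k X : ℕ} {w : ℝ} (h : WW k X w) : 2 * k * X < (zX k X + 1) ^ JJ k := by
  have hX0 : (0 : ℝ) ≤ X := Nat.cast_nonneg X
  have hJ0 : JJ k ≠ 0 := by
    unfold JJ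
    positivity
  have h1 : (X : ℝ) ^ (cs k / 8) < (zX k X : ℝ) + 1 := by
    unfold zX
    exact Nat.lt_floor_add_one _
  have h2 : ((X : ℝ) ^ (cs k / 8)) ^ JJ k < ((zX k X : ℝ) + 1) ^ JJ k :=
    pow_lt_pow_left₀ h1 (Real.rpow_nonneg hX0 _) hJ0
  have h3 : ((X : ℝ) ^ (cs k / 8)) ^ JJ k = (X : ℝ) ^ (2 : ℕ) := by
    rw [← Real.rpow_natCast ((X : ℝ) ^ (cs k / 8)) (JJ k), ← Real.rpow_mul hX0]
    have h4 : cs k / 8 * (JJ k : ℝ) = ((2 : ℕ) : ℝ) := by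
      have h5 := n1_cs k
      push_cast
      linarith
    rw [h4, Real.rpow_natCast]
  have h6 : ((2 * k * X : ℕ) : ℝ) < (((zX k X + 1) ^ JJ k : ℕ) : ℝ) := by
    push_cast
    refine lt_of_le_of_lt ?_ h2
    rw [h3]
    have h7 := h.kX
    nlinarith
  exact_mod_cast h6

/-- Proof. As in `n1_Y`: `exp s ≤ exp (w^400) ≤ X^(cs k/4)`, `exp (w^400) ≤ exp(w^500)/2 ≤ A`, `4 A ≤ exp (2 + w^500) ≤ exp (16 w^999) ≤ X^(cs k)`, `X^(cs k/4) X^(cs k/8) = X^(3 cs k/8) ≤ X^(cs k)`, `1 ≤ X^(cs k/4) ≤ X^(1/2)` (`cs k ≤ 1`). -/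
theorem n1_supp {k X : ℕ} {w : ℝ} (hk : 1 ≤ k) (h : WW k X w) (s : ℝ) (hs : s ≤ w ^ 400) :
    Real.exp s ≤ (X : ℝ) ^ (cs k / 4) ∧ Real.exp s ≤ AX X ∧ 4 * (AX X : ℝ) ≤ (X : ℝ) ^ cs k ∧
    (X : ℝ) ^ (cs k / 4) * (X : ℝ) ^ (cs k / 8) ≤ (X : ℝ) ^ cs k ∧ 1 ≤ (X : ℝ) ^ (cs k / 4) ∧
    (X : ℝ) ^ (cs k / 4) ≤ (X : ℝ) ^ (1 / 2 : ℝ) := by
  have hw := n1_w100 hk h
  have h1 := n1_csw hk h
  have h2 : 100 * w ^ 400 ≤ w ^ 999 := n1_pw hw (by norm_num)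
  have h3 : 100 * w ^ 400 ≤ w ^ 500 := n1_pw hw (by norm_num)
  have h4 : 100 * w ^ 500 ≤ w ^ 999 := n1_pw hw (by norm_num)
  have h5 := n1_one hw 400
  have h6 := n1_one hw 500
  have h7 := n1_one hw 1000
  have hc0 := n1_cs0 k
  have hc1 := n1_cs1 k
  have hcw : 0 ≤ w ^ 1000 * cs k := by positivity
  rw [n1_Xpow h, n1_Xpow h, n1_Xpow h, n1_Xpow h]
  refine ⟨?_, ?_, ?_, ?_, ?_, ?_⟩
  · apply Real.exp_le_exp.mpr
    linarith
  · refine le_trans ?_ h.A1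
    have h8 : Real.exp (s + 1) ≤ Real.exp (w ^ 500) := Real.exp_le_exp.mpr (by linarith)
    rw [Real.exp_add] at h8
    have h9 : (2 : ℝ) ≤ Real.exp 1 := by
      have := Real.add_one_le_exp (1 : ℝ)
      linarith
    have h10 := Real.exp_pos s
    nlinarith
  · calc 4 * (AX X : ℝ) ≤ Real.exp 2 * Real.exp (w ^ 500) :=
          mul_le_mul n1_four h.A2 (Nat.cast_nonneg _) (Real.exp_pos _).le
      _ = Real.exp (2 + w ^ 500) := by rw [Real.exp_add]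
      _ ≤ Real.exp (w ^ 1000 * cs k) := by
          apply Real.exp_le_exp.mpr
          linarith
  · rw [← Real.exp_add]
    apply Real.exp_le_exp.mpr
    linarith
  · rw [← Real.exp_zero]
    apply Real.exp_le_exp.mpr
    linarith
  · apply Real.exp_le_exp.mpr
    apply mul_le_mul_of_nonneg_left _ (by linarith)
    linarith

/-- Proof. `(log X)^(9/10) = w^900`; `4 D ≤ exp (2 + w^600)`; `2 + w^600 + w^900 ≤ w^1000/2`. -/
theorem n1_short {k X : ℕ} {w : ℝ} (hk : 1 ≤ k) (h : WW k X w) :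
    4 * (DX X : ℝ) * Real.exp ((Real.log X) ^ (9 / 10 : ℝ)) ≤ (X : ℝ) ^ (1 / 2 : ℝ) := by
  have hw := n1_w100 hk h
  have hw0 : (0 : ℝ) ≤ w := by linarith
  have h1 : (Real.log X) ^ (9 / 10 : ℝ) = w ^ 900 := by
    rw [h.L, ← Real.rpow_natCast w 1000, ← Real.rpow_mul hw0, ← Real.rpow_natCast w 900]
    norm_num
  have h2 : 100 * w ^ 600 ≤ w ^ 1000 := n1_pw hw (by norm_num)
  have h3 : 100 * w ^ 900 ≤ w ^ 1000 := n1_pw hw (by norm_num)
  have h4 := n1_one hw 600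
  rw [h1, n1_Xpow h]
  calc 4 * (DX X : ℝ) * Real.exp (w ^ 900) ≤ Real.exp 2 * Real.exp (w ^ 600) * Real.exp (w ^ 900) := by
        apply mul_le_mul_of_nonneg_right _ (Real.exp_pos _).le
        exact mul_le_mul n1_four h.D2 (Nat.cast_nonneg _) (Real.exp_pos _).le
    _ = Real.exp (2 + w ^ 600 + w ^ 900) := by rw [Real.exp_add, Real.exp_add]
    _ ≤ Real.exp (w ^ 1000 * (1 / 2)) := by
        apply Real.exp_le_exp.mpr
        linarith

end Pool.Agent.H44UB
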