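import Pool.Agent.Lib.H44UB.T3
import Pool.Agent.Lib.H44UB.N1

/-!
# H44UB, chunk S1 (M): sizes and supports (old proofs: `HUK/BH7.lean`, `bh_siz`, `bh_u`)
-/

open Finset

namespace Pool.Agent.H44UB

open Pool.Agent.HUK
open Pool.Agent.H16U
open Pool.Agent.Lib.H81A (af muV one1 logf)

/-- Proof. `N = 2kX`, `A = AX X`, `D = DX X`, `z = zX k X`, `Y = X^(cs k/8)`, `M = (log X)^2 = w^2000`; all bounds by `BD_of_BN`. `log n ≤ log N ≤ w^1001 ≤ M` for `n ≤ N`, `1 ≤ M`. `muV z`: values of the Moebius function (as in `HUK/BH7.lean`), supported on `n ≤ z ≤ Y`;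
`fS`: `sml_mem`, `sml_zero` (support `n ≤ 4D ≤ Y`, `n1_Y`); `fSL`: in addition `0 ≤ log n ≤ M`; `fV`, `fVL`: `vv_mem`; `one1`, `logf` clear. `fU`: `0 ≤ uu ≤ 1/SA A ≤ w^501` (`uu_mem`, `h.Si`), `fUL`: `≤ w^501 w^1001 ≤ w^2000`. `us`: `uu A n ≠ 0` gives `A < n ≤ 4A`
(`uu_supp`), and `exp s ≤ A`, `4A ≤ X^(cs k)` (`n1_supp`). `S`: `h.S`. -/
theorem sizU {k X : ℕ} {w : ℝ} (hk : 1 ≤ k) (h : WW k X w) (s : ℝ) (hs : s ≤ w ^ 400) :
    SizU (2 * k * X) (AX X) (DX X) (zX k X) ((X : ℝ) ^ (cs k / 8)) ((Real.log X) ^ 2) (Real.exp s) ((X : ℝ) ^ cs k) := by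
  have hw1 : 1 ≤ w := le_trans (one_le_pow₀ (by norm_num)) h.big
  have hw0 : 0 ≤ w := zero_le_one.trans hw1
  have hpow : ∀ {a b : ℕ}, a ≤ b → w ^ a ≤ w ^ b := fun hab => pow_le_pow_right₀ hw1 hab
  have hMdef : (Real.log X) ^ 2 = w ^ 2000 := by rw [h.L, ← pow_mul]
  rw [hMdef]
  have hM : 1 ≤ w ^ 2000 := one_le_pow₀ hw1
  have h5 : 0 < SA (AX X) := h.S
  have hlog : ∀ n : ℕ, 1 ≤ n → 0 ≤ Real.log n := fun n _ => Real.log_natCast_nonneg n
  have h3' : ∀ n : ℕ, 1 ≤ n → n ≤ 2 * k * X → Real.log n ≤ w ^ 1001 := by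
    intro n hn hn2
    have hn3 : (n : ℝ) ≤ 2 * k * X := by exact_mod_cast hn2
    have hn0 : (0 : ℝ) < n := by exact_mod_cast hn
    exact (Real.log_le_log hn0 hn3).trans h.lN
  have h3 : ∀ n : ℕ, 1 ≤ n → n ≤ 2 * k * X → Real.log n ≤ w ^ 2000 := fun n hn hn2 =>
    (h3' n hn hn2).trans (hpow (by norm_num))
  have hsm := fun n => sml_mem (AX X) (DX X) n h5
  have hvm := fun n => vv_mem (AX X) (DX X) n
  have hum := fun n => uu_mem (AX X) n
  have hY := n1_Y hk h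
  have hss : ∀ n : ℕ, sml (AX X) (DX X) n ≠ 0 → (n : ℝ) ≤ (X : ℝ) ^ (cs k / 8) := by
    intro n hn
    have h7 : n ≤ 4 * DX X := by
      by_contra hc
      exact hn (sml_zero _ _ n h5 (not_le.1 hc))
    have h8 : (n : ℝ) ≤ 4 * (DX X : ℝ) := by exact_mod_cast h7
    exact h8.trans hY
  have hz : ((zX k X : ℕ) : ℝ) ≤ (X : ℝ) ^ (cs k / 8) :=
    Nat.floor_le (Real.rpow_nonneg (Nat.cast_nonneg X) _)
  obtain ⟨hs1, hs2, hs3, -, -, -⟩ := n1_supp hk h s hs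
  refine ⟨hM, ⟨BD_of_BN ?_, ?_⟩, ⟨BD_of_BN ?_, ?_⟩, ⟨BD_of_BN ?_, ?_⟩, BD_of_BN ?_, BD_of_BN ?_,
    BD_of_BN ?_, BD_of_BN ?_, BD_of_BN ?_, BD_of_BN ?_, ?_, h5⟩
  · intro n hn _
    rw [muV, Pool.Agent.Lib.H81A.af_apply _ (by omega)]
    split_ifs
    · have h7 : |((ArithmeticFunction.moebius n : ℤ) : ℝ)| ≤ 1 := by
        exact_mod_cast ArithmeticFunction.abs_moebius_le_one
      exact h7.trans hM
    · rw [abs_zero]
      linarith
  · intro n hn _ hF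
    rw [muV, Pool.Agent.Lib.H81A.af_apply _ (by omega)] at hF
    split_ifs at hF with h7
    · have h8 : (n : ℝ) ≤ ((zX k X : ℕ) : ℝ) := by exact_mod_cast h7
      exact h8.trans hz
    · exact absurd rfl hF
  · intro n hn _
    rw [fS, Pool.Agent.Lib.H81A.af_apply _ (by omega), abs_of_nonneg (hsm n).1]
    exact (hsm n).2.trans hM
  · intro n hn _ hF
    rw [fS, Pool.Agent.Lib.H81A.af_apply _ (by omega)] at hF
    exact hss n hF
  · intro n hn hn2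
    rw [fSL, Pool.Agent.Lib.H81A.af_apply _ (by omega),
      abs_of_nonneg (mul_nonneg (hsm n).1 (hlog n hn))]
    exact (mul_le_of_le_one_left (hlog n hn) (hsm n).2).trans (h3 n hn hn2)
  · intro n hn _ hF
    rw [fSL, Pool.Agent.Lib.H81A.af_apply _ (by omega)] at hF
    exact hss n (left_ne_zero_of_mul hF)
  · intro n hn _
    rw [fV, Pool.Agent.Lib.H81A.af_apply _ (by omega), abs_of_nonneg (hvm n).1]
    exact (hvm n).2.trans hM
  · intro n hn hn2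
    rw [fVL, Pool.Agent.Lib.H81A.af_apply _ (by omega),
      abs_of_nonneg (mul_nonneg (hvm n).1 (hlog n hn))]
    exact (mul_le_of_le_one_left (hlog n hn) (hvm n).2).trans (h3 n hn hn2)
  · intro n hn _
    rw [one1, Pool.Agent.Lib.H81A.af_apply _ (by omega), abs_one]
    exact hM
  · intro n hn hn2
    rw [logf, Pool.Agent.Lib.H81A.af_apply _ (by omega), abs_of_nonneg (hlog n hn)]
    exact h3 n hn hn2
  · intro n hn _
    rw [fU, Pool.Agent.Lib.H81A.af_apply _ (by omega), abs_of_nonneg (hum n).1]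
    exact ((hum n).2.trans h.Si).trans (hpow (by norm_num))
  · intro n hn hn2
    rw [fUL, Pool.Agent.Lib.H81A.af_apply _ (by omega),
      abs_of_nonneg (mul_nonneg (hum n).1 (hlog n hn))]
    calc uu (AX X) n * Real.log n ≤ w ^ 501 * w ^ 1001 :=
          mul_le_mul ((hum n).2.trans h.Si) (h3' n hn hn2) (hlog n hn) (pow_nonneg hw0 _)
      _ = w ^ 1502 := by rw [← pow_add]
      _ ≤ w ^ 2000 := hpow (by norm_num)
  · intro n hn _ hF
    have hu : uu (AX X) n ≠ 0 := by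
      rcases hF with hF | hF
      · rw [fU, Pool.Agent.Lib.H81A.af_apply _ (by omega)] at hF
        exact hF
      · rw [fUL, Pool.Agent.Lib.H81A.af_apply _ (by omega)] at hF
        exact left_ne_zero_of_mul hF
    obtain ⟨h8, h9⟩ := uu_supp _ n hu
    have h10 : (AX X : ℝ) ≤ n := by exact_mod_cast (le_of_lt h8)
    have h11 : (n : ℝ) ≤ 4 * (AX X : ℝ) := by exact_mod_cast h9
    exact ⟨hs2.trans h10, h11.trans hs3⟩

end Pool.Agent.H44UB
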