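import Pool.Agent.Lib.H44UB.B2
import Pool.Agent.Lib.H44UB.G2
import Pool.Agent.Lib.H44UB.S1
import Pool.Agent.Lib.H44UB.N4

/-!
# H44UB, chunk F1 (M): THE PRIMES
-/

open Finset

namespace Pool.Agent.H44UB

open Pool.Agent.HUK
open Pool.Agent.H16U
open Pool.Agent.Lib.H81A (af muV one1 logf)
open Pool.Agent.Lib.H68T (lp)

/-- Proof. `B1` from `hypU_of_TIIu`, `B` from `RG.absorb B0 6`, take the maximum (`RG.mono`; the conclusion for a larger `B` is weaker: `mk_mono`). `E = X² exp (-s') (log X)^P`, `P = 2^(2^(5k))`, `s' = s/mk B0 k`. `hb_termU` with `A = AX X`, `D = DX X`, `z = zX k X`, `J = JJ k` (`KK k = 2 J + 2`),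
`T = X^(cs k/4)`, `Y = X^(cs k/8)`, `M = (log X)^2`, `lo = exp s`, `hi = X^cs k` (`n1_supp`, `sizU`), and `n3_triv` for the last summand (`T ≤ X^(1/2)`): every term of Heath-Brown's identity is at most `(4J+5) E + E`. `HUK.bh_vM` (`n1_z`, `0 < JJ k`): `‖LF Λ‖ ≤ 2^J (4J+6) E`. `lpU`, `n3_lp`:
`‖∑ lp Psi‖ ≤ E + 2^J (4J+6) E ≤ E (log X)^P` (`n3_sum`) `= X² exp (-s') (log X)^(2P) ≤ X² (log X)^(2^(2^(6k))) exp (-s')` (`2 * 2^(2^(5k)) ≤ 2^(2^(6k))`, `log X ≥ 1`) `≤ X² exp (-(s/mk B k))`. -/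
theorem tlpU_of_tiiU (B0 : ℕ) (hT : TIIu B0) : ∃ B : ℕ, TLPu B := by
  obtain ⟨B1, hB1⟩ := hypU_of_TIIu B0 hT
  obtain ⟨B2, hB2, hB3⟩ := RG.absorb B0 6
  refine ⟨B1 + B2, fun k hk X hRG s hs f hf hG => ?_⟩
  obtain ⟨hW, hyp⟩ := hB1 k hk X (hRG.mono (by omega))
  have hyp := hyp s hs f hf hG
  have hR0 : RG B2 k X := hRG.mono (by omega)
  have hL2 : 2 ≤ Real.log X := hR0.two_le
  have hL0 : 0 < Real.log X := by linarith
  obtain ⟨w, hw⟩ : ∃ w, w = (Real.log X) ^ (1 / 1000 : ℝ) := ⟨_, rfl⟩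
  rw [← hw] at hW
  have h400 : (Real.log X) ^ (2 / 5 : ℝ) = w ^ 400 := by
    rw [hw, ← Real.rpow_natCast, ← Real.rpow_mul hL0.le]
    norm_num
  have hs1 : s ≤ w ^ 400 := by
    rw [← h400]
    exact hs.hi
  have hs0 : 0 < s := lt_of_lt_of_le (by positivity) hs.lo
  have hs' : s / mk B0 k ≤ w ^ 400 := le_trans (div_le_self hs0.le (mk_one_le B0 k)) hs1
  obtain ⟨E, hE⟩ : ∃ E, E = (X : ℝ) ^ 2 * Real.exp (-(s / mk B0 k)) * (Real.log X) ^ (2 ^ (2 ^ (5 * k))) := ⟨_, rfl⟩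
  have hE0 : 0 ≤ E := by
    rw [hE]
    positivity
  have hk1 : 1 ≤ k := by omega
  have hsup := n1_supp hk1 hW s hs1
  have hsiz := sizU hk1 hW s hs1
  have hz := n1_z hW
  have hJ : 0 < JJ k := by
    unfold JJ
    positivity
  have hterm : ∀ j, j < JJ k → ‖LF X k f (muV (zX k X) ^ (j + 1) * one1 ^ j * logf)‖ ≤ ((4 * (JJ k : ℝ) + 5) + 1) * E := by
    intro j hj
    have h1 := hb_termU X k f hf (AX X) (DX X) (zX k X) (JJ k) j hj ((X : ℝ) ^ (cs k / 4)) ((X : ℝ) ^ (cs k / 8)) ((Real.log X) ^ 2)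
      (Real.exp s) ((X : ℝ) ^ cs k) E hsup.2.2.2.2.1 hsup.1 hsup.2.2.2.1 (by rw [hE]; exact hyp) hsiz
    have h2 := n3_triv hk1 hW (s / mk B0 k) hs' ((X : ℝ) ^ (cs k / 4)) (by positivity) hsup.2.2.2.2.2
    rw [← hE] at h2
    have h3 : (4 * (JJ k : ℝ) + 5) * E + (X : ℝ) ^ (cs k / 4) * ((Real.log X) ^ 2) ^ (2 * JJ k + 2) *
        QQ (2 * k * X) ^ (2 * JJ k + 2) * (4 * X) ≤ (4 * (JJ k : ℝ) + 5) * E + E := by
      have h4 : KK k = 2 * JJ k + 2 := rfl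
      rw [h4] at h2
      linarith
    calc _ ≤ _ := h1
      _ ≤ _ := h3
      _ = _ := by ring
  have hvM := bh_vM X k f (zX k X) (JJ k) hJ hz _ hterm
  have hlp := lpU hk1 hW f hf
  have hlp2 := n3_lp hk1 hW (s / mk B0 k) hs'
  rw [← hE] at hlp2
  have hsum := n3_sum hk1 hW
  have h5 : ‖∑ n ∈ Icc 1 (2 * k * X), ((lp n : ℝ) : ℂ) * Psi X k f n‖ ≤ E * (Real.log X) ^ (2 ^ (2 ^ (5 * k))) := by
    have h6 : ‖∑ n ∈ Icc 1 (2 * k * X), ((lp n : ℝ) : ℂ) * Psi X k f n‖ ≤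
        ‖(∑ n ∈ Icc 1 (2 * k * X), ((lp n : ℝ) : ℂ) * Psi X k f n) - LF X k f ArithmeticFunction.vonMangoldt‖ +
        ‖LF X k f ArithmeticFunction.vonMangoldt‖ := by
      have := norm_add_le ((∑ n ∈ Icc 1 (2 * k * X), ((lp n : ℝ) : ℂ) * Psi X k f n) - LF X k f ArithmeticFunction.vonMangoldt)
        (LF X k f ArithmeticFunction.vonMangoldt)
      rwa [sub_add_cancel] at this
    have h7 : 2 ^ JJ k * (((4 * (JJ k : ℝ) + 5) + 1) * E) = (2 ^ JJ k * ((4 * (JJ k : ℝ) + 5) + 1)) * E := by ring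
    have h8 : (1 + 2 ^ JJ k * ((4 * (JJ k : ℝ) + 5) + 1)) * E ≤ (Real.log X) ^ (2 ^ (2 ^ (5 * k))) * E :=
      mul_le_mul_of_nonneg_right hsum hE0
    nlinarith
  have h9 := hB3 k X hk1 hR0 s hs.lo
  have hP : 2 ^ (2 ^ (5 * k)) + 2 ^ (2 ^ (5 * k)) ≤ 2 ^ (2 ^ (6 * k)) := by
    have e1 : 2 ^ (2 ^ (5 * k)) + 2 ^ (2 ^ (5 * k)) = 2 ^ (2 ^ (5 * k) + 1) := by ring
    rw [e1]
    refine Nat.pow_le_pow_right (by norm_num) ?_
    have e2 : 2 ^ (6 * k) = 2 ^ (5 * k) * 2 ^ k := by rw [← pow_add]; congr 1; ring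
    have e3 : 2 ≤ 2 ^ k := by
      calc 2 = 2 ^ 1 := by norm_num
        _ ≤ 2 ^ k := Nat.pow_le_pow_right (by norm_num) (by omega)
    have e4 : 1 ≤ 2 ^ (5 * k) := Nat.one_le_two_pow
    rw [e2]
    nlinarith
  have h10 : E * (Real.log X) ^ (2 ^ (2 ^ (5 * k))) ≤ (X : ℝ) ^ 2 * ((Real.log X) ^ (2 ^ (2 ^ (6 * k))) * Real.exp (-(s / mk B0 k))) := by
    have e5 : E * (Real.log X) ^ (2 ^ (2 ^ (5 * k))) =
        (X : ℝ) ^ 2 * ((Real.log X) ^ (2 ^ (2 ^ (5 * k)) + 2 ^ (2 ^ (5 * k))) * Real.exp (-(s / mk B0 k))) := by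
      rw [hE, pow_add]
      ring
    rw [e5]
    gcongr
    linarith
  refine h5.trans (h10.trans ?_)
  refine (mul_le_mul_of_nonneg_left h9 (by positivity)).trans ?_
  gcongr
  · exact mk_pos _ _
  · exact mk_mono (by omega) k

end Pool.Agent.H44UB
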