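import Pool.Agent.Lib.H44UB.B2
import Pool.Agent.Lib.H44UB.G2
import Pool.Agent.Lib.H44UB.S1

/-!
# H44UB, chunk F2 (M): A SMOOTH VARIABLE TIMES A SHORT ONE
-/

open Finset

namespace Pool.Agent.H44UB

open Pool.Agent.HUK
open Pool.Agent.H16U
open Pool.Agent.Lib.H81A (af muV one1 logf)

/-- Proof. `B` as in `F1` (`RG.absorb B0 6`). `g = af G`. For `n ≥ 1` `∑_{d ∣ n} G d = (g * one1) n` (`ArithmeticFunction.mul_apply`, `Nat.sum_divisorsAntidiagonal`), so the sum is `LF X k f (one1 * g)` and `one1 * g = fS * g + fU * (fV * g) + g * fE` (`one_split`, ring),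
`LF_add`. `|g| ≤ 1`, so `BD N 1 1 g` (`BD_of_BN`).
(1) `fS * g`: `BD N 2 M (fS * g)` (`BD_mul`, `sizU`), and its support: `(fS * g) n ≠ 0` gives `n = a b` with `fS a ≠ 0`, `g b ≠ 0`, so `a ≤ 4D` (`sml_zero`), `b ≤ exp ((log X)^(9/10))`: `n ≤ T = 4 D exp (...) ≤ X^(1/2)` (`n1_short`). `LF_BD` with `j = K`, `M^K` (`BD.mono`, `2 ≤ K`), then `n3_triv`: `≤ E`.
(2) `fU * (fV * g)`: `HypU.t2` (`sizU.u`, `sizU.us`; `BD_mul`, `BD.mono` as `1, 2 ≤ K`, `1 ≤ M`): `≤ E`. (3) `HypU.e`: `≤ E`.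
Total `≤ 3 E ≤ E (log X)^P` (`3 ≤ 1 + 2^J (4J+6)`, `n3_sum`) `≤ X² exp (-(s/mk B k))` as in `F1`. -/
theorem tsmU_of_tiiU (B0 : ℕ) (hT : TIIu B0) : ∃ B : ℕ, TSMu B := by
  obtain ⟨B1, hB1⟩ := hypU_of_TIIu B0 hT
  obtain ⟨B2, hB2, hB3⟩ := RG.absorb B0 6
  refine ⟨B1 + B2, fun k hk X hRG s hs G hG1 hG2 f hf hGG => ?_⟩
  obtain ⟨hW, hyp⟩ := hB1 k hk X (hRG.mono (by omega))
  have hyp := hyp s hs f hf hGG
  have hR0 : RG B2 k X := hRG.mono (by omega)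
  have hL2 : 2 ≤ Real.log X := hR0.two_le
  have hL0 : 0 < Real.log X := by linarith
  obtain ⟨w, hw⟩ : ∃ w, w = (Real.log X) ^ (1 / 1000 : ℝ) := ⟨_, rfl⟩
  rw [← hw] at hW
  have h400 : (Real.log X) ^ (2 / 5 : ℝ) = w ^ 400 := by
    rw [hw, ← Real.rpow_natCast, ← Real.rpow_mul hL0.le]
    norm_num
  have hs1 : s ≤ w ^ 400 := by
    rw [← h400]
    exact hs.hi
  have hs0 : 0 < s := lt_of_lt_of_le (by positivity) hs.lo
  have hs' : s / mk B0 k ≤ w ^ 400 := le_trans (div_le_self hs0.le (mk_one_le B0 k)) hs1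
  obtain ⟨E, hE⟩ : ∃ E, E = (X : ℝ) ^ 2 * Real.exp (-(s / mk B0 k)) * (Real.log X) ^ (2 ^ (2 ^ (5 * k))) := ⟨_, rfl⟩
  rw [← hE] at hyp
  have hE0 : 0 ≤ E := by
    rw [hE]
    positivity
  have hk1 : 1 ≤ k := by omega
  have hsiz := sizU hk1 hW s hs1
  have hM1 := hsiz.M1
  have hK : 2 ≤ KK k := by
    unfold KK
    omega
  obtain ⟨M, hM⟩ : ∃ M, M = (Real.log X) ^ 2 := ⟨_, rfl⟩
  have htriv := n3_triv hk1 hW (s / mk B0 k) hs' (4 * (DX X : ℝ) * Real.exp ((Real.log X) ^ (9 / 10 : ℝ))) (by positivity)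
    (n1_short hk1 hW)
  rw [← hE] at htriv
  rw [← hM] at hM1 hsiz hyp htriv
  have hMK : M ≤ M ^ KK k := by
    calc M = M ^ 1 := (pow_one M).symm
      _ ≤ M ^ KK k := pow_le_pow_right₀ hM1 (by omega)
  have hMK0 : 0 ≤ M ^ KK k := by linarith
  obtain ⟨g, hg⟩ : ∃ g : ArithmeticFunction ℝ, g = af G := ⟨_, rfl⟩
  have hgv : ∀ n : ℕ, 1 ≤ n → g n = G n := by
    intro n hn
    rw [hg]
    exact Pool.Agent.Lib.H81A.af_apply G (by omega)
  have hgB : BD (2 * k * X) 1 1 g := BD_of_BN fun n h1 _ => by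
    rw [hgv n h1]
    exact hG1 n
  have hsum : ∑ n ∈ Icc 1 (2 * k * X), ((∑ d ∈ n.divisors, G d : ℝ) : ℂ) * Psi X k f n = LF X k f (one1 * g) := by
    unfold LF
    refine Finset.sum_congr rfl fun n hn => ?_
    rw [mem_Icc] at hn
    have h1 : (one1 * g) n = ∑ d ∈ n.divisors, G d := by
      rw [ArithmeticFunction.mul_apply, Nat.sum_divisorsAntidiagonal' (fun a b => one1 a * g b)]
      refine Finset.sum_congr rfl fun d hd => ?_
      have hd1 : 1 ≤ d := Nat.pos_of_mem_divisors hd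
      have hd2 : n / d ≠ 0 := by
        have := Nat.div_pos (Nat.divisor_le hd) hd1
        omega
      unfold one1
      rw [Pool.Agent.Lib.H81A.af_apply _ hd2, one_mul, hgv d hd1]
    rw [h1]
  have hsplit : one1 * g = fS (AX X) (DX X) * g + fU (AX X) * (fV (AX X) (DX X) * g) + g * fE (AX X) (DX X) := by
    rw [one_split (AX X) (DX X) hsiz.S]
    ring
  have h1 : ‖LF X k f (fS (AX X) (DX X) * g)‖ ≤ E := by
    refine (LF_BD X k f hf _ (KK k) (M ^ KK k) (4 * (DX X : ℝ) * Real.exp ((Real.log X) ^ (9 / 10 : ℝ))) hMK0 (by positivity)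
      (BD.mono (BD_mul hsiz.s.1 hgB (by linarith) zero_le_one) (by omega) (by linarith) hMK0) ?_).trans htriv
    intro n hn1 hn2 hn
    rw [ArithmeticFunction.mul_apply] at hn
    obtain ⟨x, hx, hx0⟩ := Finset.exists_ne_zero_of_sum_ne_zero hn
    obtain ⟨h4, h5, h6, h7⟩ := bh2_mem hn1 hx
    have hS0 := left_ne_zero_of_mul hx0
    have hg0 := right_ne_zero_of_mul hx0
    rw [hgv _ h5] at hg0
    have h8 : x.1 ≤ 4 * DX X := by
      by_contra hcon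
      refine hS0 ?_
      unfold fS
      rw [Pool.Agent.Lib.H81A.af_apply _ (by omega)]
      exact sml_zero (AX X) (DX X) x.1 hsiz.S (by omega)
    have h9 := hG2 x.2 hg0
    rw [Nat.mem_divisorsAntidiagonal] at hx
    have h10 : (n : ℝ) = (x.1 : ℝ) * x.2 := by
      rw [← hx.1]
      push_cast
      ring
    rw [h10]
    have h11 : (x.1 : ℝ) ≤ 4 * (DX X : ℝ) := by exact_mod_cast h8
    exact mul_le_mul h11 h9 (by positivity) (by positivity)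
  have h2 : ‖LF X k f (fU (AX X) * (fV (AX X) (DX X) * g))‖ ≤ E := by
    refine hyp.t2 _ _ (BD.mono hsiz.u (by omega) hMK hMK0)
      (BD.mono (BD_mul hsiz.v hgB (by linarith) zero_le_one) (by omega) (by linarith) hMK0) ?_
    intro n hn1 hn2 hn
    exact hsiz.us n hn1 hn2 (Or.inl hn)
  have h3 : ‖LF X k f (g * fE (AX X) (DX X))‖ ≤ E :=
    hyp.e g (BD.mono hgB (by omega) (by linarith) hMK0)
  have hn3 := n3_sum hk1 hW
  have h3E : ‖∑ n ∈ Icc 1 (2 * k * X), ((∑ d ∈ n.divisors, G d : ℝ) : ℂ) * Psi X k f n‖ ≤ E * (Real.log X) ^ (2 ^ (2 ^ (5 * k))) := by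
    rw [hsum, hsplit, LF_add, LF_add]
    have h4 : (3 : ℝ) ≤ (Real.log X) ^ (2 ^ (2 ^ (5 * k))) := by
      refine le_trans ?_ hn3
      have h5 : (1 : ℝ) ≤ 2 ^ JJ k := one_le_pow₀ (by norm_num)
      have h6 : (0 : ℝ) ≤ (JJ k : ℝ) := Nat.cast_nonneg _
      nlinarith
    calc _ ≤ ‖LF X k f (fS (AX X) (DX X) * g)‖ + ‖LF X k f (fU (AX X) * (fV (AX X) (DX X) * g))‖ + ‖LF X k f (g * fE (AX X) (DX X))‖ :=
          norm_add₃_le
      _ ≤ E + E + E := by linarith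
      _ = E * 3 := by ring
      _ ≤ _ := mul_le_mul_of_nonneg_left h4 hE0
  have h9 := hB3 k X hk1 hR0 s hs.lo
  have hP : 2 ^ (2 ^ (5 * k)) + 2 ^ (2 ^ (5 * k)) ≤ 2 ^ (2 ^ (6 * k)) := by
    have e1 : 2 ^ (2 ^ (5 * k)) + 2 ^ (2 ^ (5 * k)) = 2 ^ (2 ^ (5 * k) + 1) := by ring
    rw [e1]
    refine Nat.pow_le_pow_right (by norm_num) ?_
    have e2 : 2 ^ (6 * k) = 2 ^ (5 * k) * 2 ^ k := by rw [← pow_add]; congr 1; ring
    have e3 : 2 ≤ 2 ^ k := by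
      calc 2 = 2 ^ 1 := by norm_num
        _ ≤ 2 ^ k := Nat.pow_le_pow_right (by norm_num) (by omega)
    have e4 : 1 ≤ 2 ^ (5 * k) := Nat.one_le_two_pow
    rw [e2]
    nlinarith
  have h10 : E * (Real.log X) ^ (2 ^ (2 ^ (5 * k))) ≤ (X : ℝ) ^ 2 * ((Real.log X) ^ (2 ^ (2 ^ (6 * k))) * Real.exp (-(s / mk B0 k))) := by
    have e5 : E * (Real.log X) ^ (2 ^ (2 ^ (5 * k))) =
        (X : ℝ) ^ 2 * ((Real.log X) ^ (2 ^ (2 ^ (5 * k)) + 2 ^ (2 ^ (5 * k))) * Real.exp (-(s / mk B0 k))) := by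
      rw [hE, pow_add]
      ring
    rw [e5]
    gcongr
    linarith
  refine h3E.trans (h10.trans ?_)
  refine (mul_le_mul_of_nonneg_left h9 (by positivity)).trans ?_
  gcongr
  · exact mk_pos _ _
  · exact mk_mono (by omega) k

end Pool.Agent.H44UB
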