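import Pool.Agent.Lib.H9V.V7
import Pool.Agent.Lib.H44UB.F1
import Pool.Agent.Lib.H44UB.F2

/-!
# H44UB: module B of THEOREM U, unconditional (with modules V and A: `H9V.TIIu_holds`)
-/

namespace Pool.Agent.H44UB

open Pool.Agent.H16U

/-- **The primes**: von Mangoldt weights against dual functions, uniformly in `k`. -/
theorem TLPu_holds : ∃ B : ℕ, TLPu B := tlpU_of_tiiU 64 Pool.Agent.Lib.H9V.TIIu_holds

/-- **A smooth variable times a short one** against dual functions, uniformly in `k`. -/
theorem TSMu_holds : ∃ B : ℕ, TSMu B := tsmU_of_tiiU 64 Pool.Agent.Lib.H9V.TIIu_holds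

end Pool.Agent.H44UB
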