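import Pool.Agent.Lib.H44UB.Defs

/-!
# H44UB, chunk B1 (S): type II in functional form (old proof: `HUK/BH6.lean`, `t2_LF`)
-/

open Finset

namespace Pool.Agent.H44UB

open Pool.Agent.HUK
open Pool.Agent.H16U
open Pool.Agent.Lib.H81A (af muV one1 logf)

/-- Proof. `h k hk X hRG s hs` for `α a = F a` for `1 ≤ a ≤ 2 k X` and `0` otherwise, `β` the same with `G`; `LF_mul`. -/
theorem t2_TII {B0 : ℕ} (h : TIIu B0) (k : ℕ) (hk : 3 ≤ k) (X : ℕ) (hRG : RG B0 k X) (s : ℝ) (hs : SR X s) (f : ℕ → ℤ → ℂ)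
    (hf : ∀ j, j < k → Bdd X (f j)) (hGG : GG X (k - 1) (f 0) ≤ (X : ℝ) ^ k * Real.exp (-s)) (F G : ArithmeticFunction ℝ)
    (hF : BN (2 * k * X) (Real.exp (s / mk B0 k)) F) (hG : BN (2 * k * X) (Real.exp (s / mk B0 k)) G)
    (hs : ∀ n : ℕ, 1 ≤ n → n ≤ 2 * k * X → F n ≠ 0 → Real.exp s ≤ n ∧ (n : ℝ) ≤ (X : ℝ) ^ cs k) :
    ‖LF X k f (F * G)‖ ≤ (X : ℝ) ^ 2 * Real.exp (-(s / mk B0 k)) := by
  rename_i hSR
  have hXe : (0 : ℝ) ≤ Real.exp (s / mk B0 k) := (Real.exp_pos _).le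
  have key := h k hk X hRG s hSR (fun a => if a ∈ Icc 1 (2 * k * X) then ((F a : ℝ) : ℂ) else 0)
    (fun b => if b ∈ Icc 1 (2 * k * X) then ((G b : ℝ) : ℂ) else 0) ?_ ?_ ?_ f hf hGG
  · rw [LF_mul X k (by omega) f hf F G]
    refine le_of_eq_of_le (congrArg _ ?_) key
    refine Finset.sum_congr rfl fun a ha => Finset.sum_congr rfl fun b hb => ?_
    rw [if_pos ha, if_pos hb]
  · intro a
    split_ifs with ha
    · rw [mem_Icc] at ha
      rw [Complex.norm_real, Real.norm_eq_abs]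
      exact hF a ha.1 ha.2
    · rw [norm_zero]
      exact hXe
  · intro a
    split_ifs with ha
    · rw [mem_Icc] at ha
      rw [Complex.norm_real, Real.norm_eq_abs]
      exact hG a ha.1 ha.2
    · rw [norm_zero]
      exact hXe
  · intro a ha
    split_ifs at ha with h1
    · rw [mem_Icc] at h1
      refine hs a h1.1 h1.2 fun h0 => ha ?_
      rw [h0, Complex.ofReal_zero]
    · exact absurd rfl ha

end Pool.Agent.H44UB
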