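import Pool.Agent.Lib.H44UB.E1

/-!
# H44UB, chunk E2 (M): the local estimate for `η` (old proof: `HUK/B15.lean`, `b15_local`)
-/

open Finset

namespace Pool.Agent.H44UB

open Pool.Agent.HUK
open Pool.Agent.H16U
open Pool.Agent.Lib.H81A (af muV one1 logf)

/-- Proof. `Lm = 2kX/m` (division in `ℕ`). If `Lm ≤ D`: every term is `0`: `eta A D d ≠ 0` gives `d > D ≥ Lm` (`eta_supp`), so `d m > 2kX` and `Psi = 0` (`b12_psi_zero`); the right side is `≥ 0`.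
Otherwise `b15_core` with `C = CB k` (`1 ≤ CB k`), `hel = b13C k hk` and `hnum` for the real number `(Lm : ℝ) ≥ D` give
`‖Σ‖^(2^k) ≤ (Lm X)^(2^k - 1) X (Lm ρ^(2^k)) = (Lm X ρ)^(2^k)` (`2^k ≥ 1`, `pow_succ`), so `‖Σ‖ ≤ Lm X ρ` (`pow_le_pow_left_iff` / `le_of_pow_le_pow_left₀`, all `≥ 0`) and
`Lm ≤ 2kX/m` (`Nat.cast_div_le`). -/
theorem eta_local (k X A D : ℕ) (ρ : ℝ) (hk : 2 ≤ k) (hX : 1 ≤ X) (hA : 2 ≤ A) (hkA : k ≤ A) (hS : 0 < SA A)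
    (hD : 4 * k * (A + 1) ≤ D) (hρ : 0 ≤ ρ)
    (hnum : ∀ Lm : ℝ, (D : ℝ) ≤ Lm → (2 ^ k * CB k) * ((1 / SA A) ^ (2 ^ k) * (4 * A : ℝ) ^ (2 ^ (k + 1))
        + 27 * 2 ^ k * ((1 / SA A) * (2 * Real.log (2 * k * X)) + 1) ^ (2 ^ k) * (1 / SA A) ^ 2 * Lm / A) ≤ Lm * ρ ^ (2 ^ k))
    (f : ℕ → ℤ → ℂ) (hf : ∀ j, j < k → Bdd X (f j)) (m i : ℕ) (hm : 1 ≤ m) :
    ‖∑ d ∈ Ioc i (2 * k * X), ((eta A D d : ℝ) : ℂ) * Psi X k f ((d : ℤ) * m)‖ ≤ (2 * k * X / m) * X * ρ := by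
  have hC1 : (1 : ℝ) ≤ CB k := by
    unfold CB
    have h1 : (1 : ℝ) ≤ 2 ^ (2 ^ k) := one_le_pow₀ (by norm_num)
    have hk0 : (0 : ℝ) ≤ k := Nat.cast_nonneg k
    have h2 : (1 : ℝ) ≤ (8 * ((k : ℝ) + 1)) ^ (2 ^ k) := one_le_pow₀ (by linarith)
    have h3 : (1 : ℝ) ≤ 4 * 2 ^ (2 ^ k) := by linarith
    exact one_le_mul_of_one_le_of_one_le h3 h2
  have hmr : (1 : ℝ) ≤ m := by exact_mod_cast hm
  have hXr : (1 : ℝ) ≤ X := by exact_mod_cast hX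
  by_cases hDL : D < 2 * k * X / m
  swap
  · have hz : ∀ d ∈ Ioc i (2 * k * X), ((eta A D d : ℝ) : ℂ) * Psi X k f ((d : ℤ) * m) = 0 := by
      intro d _
      by_cases hd : 2 * k * X / m < d
      · have h2 : 2 * k * X < d * m := (Nat.div_lt_iff_lt_mul (by omega)).mp hd
        rw [b12_psi_zero X k hk f hf ((d : ℤ) * m) (by exact_mod_cast h2), mul_zero]
      · have h3 : eta A D d = 0 := by
          by_contra hne
          have := b03_eta_supp A D d hne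
          omega
        rw [h3, Complex.ofReal_zero, zero_mul]
    rw [Finset.sum_eq_zero hz, norm_zero]
    positivity
  have hcore := b15_core k X A D m i hk hX hm hA hkA hS f hf hD hDL (CB k) hC1 (b13C k hk)
  have hDLr : (D : ℝ) ≤ ((2 * k * X / m : ℕ) : ℝ) := by exact_mod_cast hDL.le
  have hn := hnum _ hDLr
  have hLle : ((2 * k * X / m : ℕ) : ℝ) ≤ 2 * k * X / m := by
    have h := @Nat.cast_div_le ℝ _ _ _ (2 * k * X) m
    push_cast at h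
    exact h
  have hLpos : (0 : ℝ) < ((2 * k * X / m : ℕ) : ℝ) := by
    exact_mod_cast (by omega : 0 < 2 * k * X / m)
  generalize ‖∑ d ∈ Ioc i (2 * k * X), ((eta A D d : ℝ) : ℂ) * Psi X k f ((d : ℤ) * m)‖ = N at *
  generalize ((2 * k * X / m : ℕ) : ℝ) = L at *
  have hpow : N ^ (2 ^ k) ≤ (L * X * ρ) ^ (2 ^ k) := by
    refine hcore.trans ?_
    have h1 : (L * X) ^ (2 ^ k - 1) * X * ((2 ^ k * CB k) * ((1 / SA A) ^ (2 ^ k) * (4 * A : ℝ) ^ (2 ^ (k + 1))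
        + 27 * 2 ^ k * ((1 / SA A) * (2 * Real.log (2 * k * X)) + 1) ^ (2 ^ k) * (1 / SA A) ^ 2 * L / A)) ≤
        (L * X) ^ (2 ^ k - 1) * X * (L * ρ ^ (2 ^ k)) :=
      mul_le_mul_of_nonneg_left hn (by positivity)
    refine h1.trans (le_of_eq ?_)
    rw [mul_pow (L * X) ρ (2 ^ k)]
    have h3 : (L * X) ^ (2 ^ k) = (L * X) ^ (2 ^ k - 1) * (L * X) := by
      rw [← pow_succ]
      congr 1
      have : 0 < 2 ^ k := by positivity
      omega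
    rw [h3]
    ring
  have hb : 0 ≤ L * X * ρ := by positivity
  have hN : N ≤ L * X * ρ := le_of_pow_le_pow_left₀ (by positivity) hb hpow
  refine hN.trans ?_
  exact mul_le_mul_of_nonneg_right (mul_le_mul_of_nonneg_right hLle (by positivity)) hρ

end Pool.Agent.H44UB
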