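import Pool.Agent.Lib.H44UB.T1

/-!
# H44UB, chunk E3 (M): from the local estimate to the functional (old proofs: `HUK/B16.lean`, `HUK/BH6.lean`, `eta_LF`)
-/

open Finset

namespace Pool.Agent.H44UB

open Pool.Agent.HUK
open Pool.Agent.H16U
open Pool.Agent.Lib.H81A (af muV one1 logf)

private theorem E3_aux (X k : ℕ) (hk : 2 ≤ k) (f : ℕ → ℤ → ℂ) (hf : ∀ j, j < k → Bdd X (f j)) (r : ℝ) (hr : 0 ≤ r)
    (T : ArithmeticFunction ℝ)
    (hT : ∀ m : ℕ, 1 ≤ m → ‖∑ b ∈ Icc 1 (2 * k * X), ((T b : ℝ) : ℂ) * Psi X k f ((m : ℤ) * b)‖ ≤ r / m * QQ (2 * k * X))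
    (j : ℕ) (M : ℝ) (hM : 0 ≤ M) (G : ArithmeticFunction ℝ) (hG : BD (2 * k * X) j M G) :
    ‖LF X k f (G * T)‖ ≤ r * M * QQ (2 * k * X) ^ j * QQ (2 * k * X) := by
  rw [LF_mul X k hk f hf]
  have hQ : 0 ≤ QQ (2 * k * X) := zero_le_one.trans (QQ_one_le _)
  have h1 : ∀ a ∈ Icc 1 (2 * k * X), ‖∑ b ∈ Icc 1 (2 * k * X),
      ((G a : ℝ) : ℂ) * ((T b : ℝ) : ℂ) * Psi X k f ((a : ℤ) * b)‖ ≤
      (M * r * QQ (2 * k * X)) * ((one1 ^ j : ArithmeticFunction ℝ) a / (a : ℝ)) := by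
    intro a ha
    have ha' := mem_Icc.1 ha
    have h2 : ∑ b ∈ Icc 1 (2 * k * X), ((G a : ℝ) : ℂ) * ((T b : ℝ) : ℂ) * Psi X k f ((a : ℤ) * b) =
        ((G a : ℝ) : ℂ) * ∑ b ∈ Icc 1 (2 * k * X), ((T b : ℝ) : ℂ) * Psi X k f ((a : ℤ) * b) := by
      rw [mul_sum]
      exact sum_congr rfl fun b _ => by ring
    rw [h2, norm_mul, Complex.norm_real, Real.norm_eq_abs]
    calc |G a| * ‖∑ b ∈ Icc 1 (2 * k * X), ((T b : ℝ) : ℂ) * Psi X k f ((a : ℤ) * b)‖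
        ≤ (M * (one1 ^ j : ArithmeticFunction ℝ) a) * (r / a * QQ (2 * k * X)) :=
          mul_le_mul (hG a ha'.1 ha'.2) (hT a ha'.1) (norm_nonneg _) (mul_nonneg hM (tau_nonneg j a))
      _ = (M * r * QQ (2 * k * X)) * ((one1 ^ j : ArithmeticFunction ℝ) a / (a : ℝ)) := by ring
  calc _ ≤ ∑ a ∈ Icc 1 (2 * k * X), (M * r * QQ (2 * k * X)) * ((one1 ^ j : ArithmeticFunction ℝ) a / (a : ℝ)) :=
        (norm_sum_le _ _).trans (sum_le_sum h1)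
    _ = (M * r * QQ (2 * k * X)) * ∑ a ∈ Icc 1 (2 * k * X), (one1 ^ j : ArithmeticFunction ℝ) a / (a : ℝ) := by
        rw [mul_sum]
    _ ≤ (M * r * QQ (2 * k * X)) * QQ (2 * k * X) ^ j :=
        mul_le_mul_of_nonneg_left (tau_sum j _) (mul_nonneg (mul_nonneg hM hr) hQ)
    _ = _ := by ring

/-- Proof. `LF_mul X k hk f hf G (fE A D)`: the sum over `m = a ≤ N` of `G m` times `∑_{d ∈ Icc 1 N} eta d Psi (m d)` (`Icc 1 N = Ioc 0 N`; `af_apply` for `d ≥ 1`; `mul_comm`), at most `r / m` by `hloc` with `i = 0`; so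
`‖LF‖ ≤ ∑_m M τ_j(m) r / m ≤ M r QQ^j` (`tau_sum`). For `fEL`: the inner sum has the weight `log d`; `b12_log` with `a d = eta d * Psi (d m)`, `E = r / m`, gives `≤ (r/m) log (N+1) ≤ (r/m) QQ N`. The bound with the extra factor `QQ N ≥ 1` holds in both
cases. -/
theorem eta_LFU (X k : ℕ) (hk : 2 ≤ k) (f : ℕ → ℤ → ℂ) (hf : ∀ j, j < k → Bdd X (f j)) (A D : ℕ) (r : ℝ) (hr : 0 ≤ r)
    (hloc : ∀ m i : ℕ, 1 ≤ m → ‖∑ d ∈ Ioc i (2 * k * X), ((eta A D d : ℝ) : ℂ) * Psi X k f ((d : ℤ) * m)‖ ≤ r / m)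
    (j : ℕ) (M : ℝ) (hM : 0 ≤ M) (G : ArithmeticFunction ℝ) (hG : BD (2 * k * X) j M G) :
    ‖LF X k f (G * fE A D)‖ ≤ r * M * QQ (2 * k * X) ^ j * QQ (2 * k * X) ∧
    ‖LF X k f (G * fEL A D)‖ ≤ r * M * QQ (2 * k * X) ^ j * QQ (2 * k * X) := by
  have haf : ∀ (g : ℕ → ℝ) (d : ℕ), d ∈ Icc 1 (2 * k * X) → af g d = g d := by
    intro g d hd
    rw [mem_Icc] at hd
    exact Pool.Agent.Lib.H81A.af_apply g (by omega)
  constructor
  · refine E3_aux X k hk f hf r hr (fE A D) (fun m hm => ?_) j M hM G hG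
    have h1 : ∑ b ∈ Icc 1 (2 * k * X), ((fE A D b : ℝ) : ℂ) * Psi X k f ((m : ℤ) * b) =
        ∑ d ∈ Ioc 0 (2 * k * X), ((eta A D d : ℝ) : ℂ) * Psi X k f ((d : ℤ) * m) := by
      refine sum_congr ?_ fun d hd => ?_
      · ext d
        rw [mem_Icc, mem_Ioc]
        omega
      · have hd' : d ∈ Icc 1 (2 * k * X) := by
          rw [mem_Ioc] at hd
          rw [mem_Icc]
          omega
        rw [mul_comm (m : ℤ)]
        unfold fE
        rw [haf _ d hd']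
    rw [h1]
    have h2 : 0 ≤ r / m := div_nonneg hr (Nat.cast_nonneg m)
    have h3 := QQ_one_le (2 * k * X)
    exact (hloc m 0 hm).trans (le_mul_of_one_le_right h2 h3)
  · refine E3_aux X k hk f hf r hr (fEL A D) (fun m hm => ?_) j M hM G hG
    have h1 : ∑ b ∈ Icc 1 (2 * k * X), ((fEL A D b : ℝ) : ℂ) * Psi X k f ((m : ℤ) * b) =
        ∑ d ∈ Icc 1 (2 * k * X), (((eta A D d : ℝ) : ℂ) * Psi X k f ((d : ℤ) * m)) * ((Real.log d : ℝ) : ℂ) := by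
      refine sum_congr rfl fun d hd => ?_
      rw [mul_comm (m : ℤ)]
      unfold fEL
      rw [haf _ d hd]
      push_cast
      ring
    rw [h1]
    refine (b12_log (2 * k * X) (fun d => ((eta A D d : ℝ) : ℂ) * Psi X k f ((d : ℤ) * m)) (r / m)
      (fun i => hloc m i hm)).trans ?_
    refine mul_le_mul_of_nonneg_left ?_ (div_nonneg hr (Nat.cast_nonneg m))
    unfold QQ
    linarith

end Pool.Agent.H44UB
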