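import Pool.Agent.Lib.H44UB.Defs

/-!
# H44UB, chunk N0 (M): the basic numbers in the regime
-/

open Finset

namespace Pool.Agent.H44UB

open Pool.Agent.HUK
open Pool.Agent.H16U
open Pool.Agent.Lib.H81A (af muV one1 logf)

/-- Proof. `b01_sa` gives `A0`. `w = L^(1/1000)`, `L = log X`. `RG.small 20` gives `big`; `RG.large C` gives `L ≥ C`, so `w` as large as we want: ask `exp (w^500) ≥ A0 + 1` (e.g. `w ≥ A0 + 1`, `w ≥ 100`).
`L = w^1000`, `L^(1/2) = w^500`, `L^(3/5) = w^600`: `Real.rpow_natCast`, `Real.rpow_mul`. `A1`, `A2`, `D1`, `D2`: `⌊y⌋₊ ≤ y` and `y/2 ≤ ⌊y⌋₊` for `y ≥ 2` (`HUK.b14_floor`). `Si`: `1/SA A ≤ 8 log (4A) ≤ 8 (2 + w^500) ≤ w^501` (from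
`1/(8 log 4A) ≤ SA A`: `one_div_le`), `S`: the lower bound is positive. `X1`: `RG.X_pos`. `kX`: `2k ≤ 2^(2^(20k)) ≤ w ≤ L ≤ X`. `lN`, `Q`: `log (2kX) ≤ log (X²) = 2L` and `QQ (2kX) = 1 + log (2kX + 1) ≤ 1 + log (2 X²) ≤ 2 + 2L = 2 + 2 w^1000 ≤ w^1001`
(`w ≥ 4`; the cast `((2 * k * X : ℕ) : ℝ) = 2 * k * X`). -/
theorem ww_exists : ∃ B : ℕ, ∀ k X : ℕ, 1 ≤ k → RG B k X → WW k X ((Real.log X) ^ (1 / 1000 : ℝ)) := by
  obtain ⟨A0, hA0, hA⟩ := b01_sa
  obtain ⟨B1, hB1⟩ := RG.small 20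
  obtain ⟨B2, hB2⟩ := RG.large (4 * ((A0 : ℝ) + 1) ^ 2)
  refine ⟨B1 + B2, fun k X hk h => ?_⟩
  have hL2 := h.two_le
  have hX := h.X_pos
  have hbig := hB1 k X hk (h.mono (by omega))
  have hlarge := hB2 k X hk (h.mono (by omega))
  have hX1 : (1 : ℝ) ≤ X := by exact_mod_cast hX
  have hlogX : Real.log X ≤ X := Real.log_le_self (by positivity)
  have hAX : AX X = ⌊Real.exp ((Real.log X) ^ (1 / 2 : ℝ))⌋₊ := rfl
  have hDX : DX X = ⌊Real.exp ((Real.log X) ^ (3 / 5 : ℝ))⌋₊ := rfl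
  have hL0 : 0 < Real.log X := by linarith
  obtain ⟨w, hw⟩ : ∃ w, w = (Real.log X) ^ (1 / 1000 : ℝ) := ⟨_, rfl⟩
  have e1000 : Real.log X = w ^ 1000 := by
    rw [hw, ← Real.rpow_natCast, ← Real.rpow_mul hL0.le]
    norm_num
  have e500 : (Real.log X) ^ (1 / 2 : ℝ) = w ^ 500 := by
    rw [hw, ← Real.rpow_natCast, ← Real.rpow_mul hL0.le]
    norm_num
  have e600 : (Real.log X) ^ (3 / 5 : ℝ) = w ^ 600 := by
    rw [hw, ← Real.rpow_natCast, ← Real.rpow_mul hL0.le]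
    norm_num
  rw [← hw] at hbig ⊢
  rw [e500] at hAX
  rw [e600] at hDX
  have h20 : (2 : ℝ) ^ 20 ≤ w := by
    refine le_trans (pow_le_pow_right₀ (by norm_num) ?_) hbig
    have := (Nat.lt_two_pow_self (n := 20 * k)).le
    omega
  have hw1 : 1 ≤ w := by
    refine le_trans ?_ h20
    norm_num
  have hw24 : 24 ≤ w := by
    refine le_trans ?_ h20
    norm_num
  have h2k : 2 * (k : ℝ) ≤ w := by
    refine le_trans ?_ hbig
    have h1 : 2 * k ≤ 2 ^ (2 * k) := (Nat.lt_two_pow_self (n := 2 * k)).le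
    have h2 : 2 * k ≤ 2 ^ (20 * k) := h1.trans (Nat.pow_le_pow_right (by norm_num) (by omega))
    have h3 : (2 : ℝ) * k ≤ (2 : ℝ) ^ (2 * k) := by exact_mod_cast h1
    exact h3.trans (pow_le_pow_right₀ (by norm_num) h2)
  have hwX : w ≤ X := by
    calc w = w ^ 1 := (pow_one w).symm
      _ ≤ w ^ 1000 := pow_le_pow_right₀ hw1 (by norm_num)
      _ = Real.log X := e1000.symm
      _ ≤ X := hlogX
  have p500 : 1 ≤ w ^ 500 := one_le_pow₀ hw1
  have p600 : 1 ≤ w ^ 600 := one_le_pow₀ hw1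
  have p1000 : 1 ≤ w ^ 1000 := one_le_pow₀ hw1
  have hA1 : Real.exp (w ^ 500) / 2 ≤ AX X := by
    rw [hAX]
    refine b14_floor ?_
    have := Real.add_one_le_exp (w ^ 500)
    linarith
  have hD1 : Real.exp (w ^ 600) / 2 ≤ DX X := by
    rw [hDX]
    refine b14_floor ?_
    have := Real.add_one_le_exp (w ^ 600)
    linarith
  have hA2 : (AX X : ℝ) ≤ Real.exp (w ^ 500) := by
    rw [hAX]
    exact Nat.floor_le (Real.exp_pos _).le
  have hD2 : (DX X : ℝ) ≤ Real.exp (w ^ 600) := by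
    rw [hDX]
    exact Nat.floor_le (Real.exp_pos _).le
  have h500A : 2 * ((A0 : ℝ) + 1) ≤ w ^ 500 := by
    have h1 : (2 * ((A0 : ℝ) + 1)) ^ 2 ≤ (w ^ 500) ^ 2 := by
      rw [← pow_mul, show 500 * 2 = 1000 by norm_num, ← e1000]
      refine le_trans (le_of_eq ?_) hlarge
      ring
    exact le_of_sq_le_sq h1 (by positivity)
  have hA0A : A0 ≤ AX X := by
    have h1 := Real.add_one_le_exp (w ^ 500)
    have h2 : (A0 : ℝ) ≤ AX X := by linarith
    exact_mod_cast h2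
  have hSA := hA (AX X) hA0A
  have hApos : (1 : ℝ) ≤ AX X := by
    have h1 : 1 ≤ AX X := by omega
    exact_mod_cast h1
  have hlog4 : Real.log (4 * (AX X : ℝ)) ≤ 2 + w ^ 500 := by
    have h1 : Real.log (4 * (AX X : ℝ)) ≤ Real.log (Real.exp 2 * Real.exp (w ^ 500)) := by
      refine Real.log_le_log (by positivity) ?_
      have h2 : (4 : ℝ) ≤ Real.exp 2 := by
        have h3 := Real.exp_one_gt_d9
        have h4 : Real.exp 2 = Real.exp 1 * Real.exp 1 := by rw [← Real.exp_add]; norm_num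
        rw [h4]
        nlinarith
      exact mul_le_mul h2 hA2 (by positivity) (Real.exp_pos _).le
    rw [← Real.exp_add, Real.log_exp] at h1
    exact h1
  have hlog0 : 0 < Real.log (4 * (AX X : ℝ)) := Real.log_pos (by linarith)
  have hS : 0 < SA (AX X) := lt_of_lt_of_le (by positivity) hSA
  have hSi : 1 / SA (AX X) ≤ w ^ 501 := by
    have h1 : 1 / SA (AX X) ≤ 8 * Real.log (4 * (AX X : ℝ)) := by
      have h2 := one_div_le_one_div_of_le (by positivity) hSA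
      rwa [one_div_one_div] at h2
    have h3 : w ^ 501 = w * w ^ 500 := by ring
    rw [h3]
    nlinarith
  have h1001 : w ^ 1001 = w * w ^ 1000 := by ring
  have h24 : 24 * w ^ 1000 ≤ w * w ^ 1000 := mul_le_mul_of_nonneg_right hw24 (by linarith)
  have hkX : 2 * (k : ℝ) ≤ X := h2k.trans hwX
  have hk1 : (1 : ℝ) ≤ k := by exact_mod_cast hk
  have hXX : 2 * (k : ℝ) * X ≤ (X : ℝ) * X := mul_le_mul_of_nonneg_right hkX (by linarith)
  have hlN : Real.log (2 * k * X) ≤ w ^ 1001 := by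
    have h1 : Real.log (2 * k * X) ≤ Real.log ((X : ℝ) * X) := Real.log_le_log (by positivity) hXX
    have h2 : Real.log ((X : ℝ) * X) = w ^ 1000 + w ^ 1000 := by
      rw [Real.log_mul (by positivity) (by positivity), e1000]
    rw [h1001]
    linarith
  have hQ : QQ (2 * k * X) ≤ w ^ 1001 := by
    have hX2 : (1 : ℝ) ≤ (X : ℝ) * X := by nlinarith
    have h1 : QQ (2 * k * X) ≤ 1 + Real.log (2 * ((X : ℝ) * X)) := by
      unfold QQ
      have h2 : Real.log (((2 * k * X : ℕ) : ℝ) + 1) ≤ Real.log (2 * ((X : ℝ) * X)) := by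
        refine Real.log_le_log (by positivity) ?_
        push_cast
        linarith
      linarith
    rw [Real.log_mul (by norm_num) (by positivity), Real.log_mul (by positivity) (by positivity), e1000] at h1
    have h3 : Real.log 2 ≤ 1 := by
      have := Real.log_two_lt_d9
      linarith
    rw [h1001]
    linarith
  exact ⟨hw, hbig, e1000, hA1, hA2, hD1, hD2, hS, hSi, hX, hkX, hlN, hQ⟩

end Pool.Agent.H44UB
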