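import Pool.Agent.Lib.H44UB.Defs

/-!
# H44UB, chunk N2 (M, real numbers only): the numbers of the eta part
-/

open Finset

namespace Pool.Agent.H44UB

open Pool.Agent.HUK
open Pool.Agent.H16U
open Pool.Agent.Lib.H81A (af muV one1 logf)

/-- The constant is at most `w`. -/
theorem N2_base (k : ℕ) (hk : 1 ≤ k) : (2 ^ k * CB k) * (27 * 2 ^ k) ≤ (2 : ℝ) ^ (2 ^ (20 * k)) := by
  have h0 : ((k : ℝ) + 1) ≤ 2 ^ k := by
    have h : k + 1 ≤ 2 ^ k := Nat.lt_two_pow_self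
    exact_mod_cast h
  have h1 : (8 * ((k : ℝ) + 1)) ≤ 2 ^ (k + 3) := by
    have e : (2 : ℝ) ^ (k + 3) = 8 * 2 ^ k := by
      rw [pow_add]
      ring
    rw [e]
    linarith
  have h2 : (8 * ((k : ℝ) + 1)) ^ (2 ^ k) ≤ 2 ^ ((k + 3) * 2 ^ k) := by
    rw [pow_mul]
    exact pow_le_pow_left₀ (by positivity) h1 _
  have hexp : k + 2 + 2 ^ k + (k + 3) * 2 ^ k + 5 + k ≤ 2 ^ (20 * k) := by
    have ht : k + 1 ≤ 2 ^ k := Nat.lt_two_pow_self
    have e : 2 ^ (20 * k) = (2 ^ k) ^ 2 * (2 ^ k) ^ 18 := by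
      rw [← pow_add, ← pow_mul, mul_comm]
    have ht2 : 2 ≤ 2 ^ k := by omega
    rw [e]
    generalize 2 ^ k = t at ht ht2
    have h18 : 2 ^ 18 ≤ t ^ 18 := Nat.pow_le_pow_left ht2 18
    have h13 : 13 ≤ t ^ 18 := le_trans (by norm_num) h18
    calc k + 2 + t + (k + 3) * t + 5 + k ≤ t ^ 2 * 13 := by nlinarith
      _ ≤ t ^ 2 * t ^ 18 := Nat.mul_le_mul_left _ h13
  calc (2 ^ k * CB k) * (27 * 2 ^ k)
      = 2 ^ k * (4 * 2 ^ (2 ^ k) * (8 * ((k : ℝ) + 1)) ^ (2 ^ k)) * (27 * 2 ^ k) := rfl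
    _ ≤ 2 ^ k * (4 * 2 ^ (2 ^ k) * 2 ^ ((k + 3) * 2 ^ k)) * (32 * 2 ^ k) := by gcongr; norm_num
    _ = 2 ^ (k + 2 + 2 ^ k + (k + 3) * 2 ^ k + 5 + k) := by
        rw [pow_add, pow_add, pow_add, pow_add, pow_add]
        ring
    _ ≤ (2 : ℝ) ^ (2 ^ (20 * k)) := pow_le_pow_right₀ (by norm_num) hexp

theorem N2_pw {w : ℝ} (hw : 0 ≤ w) (m : ℕ) : w ^ m ≤ Real.exp (m * w) := by
  rw [Real.exp_nat_mul]
  exact pow_le_pow_left₀ hw (by linarith [Real.add_one_le_exp w]) _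

/-- The inequality with letters. -/
theorem N2_core {w c S A lN Lm q : ℝ} {n : ℕ} (hw : 2048 ≤ w) (hn : 2048 * (n : ℝ) ≤ w)
    (hc0 : 0 ≤ c) (hq : 1 ≤ q) (hcw : c * q ≤ w) (hS0 : 0 ≤ S) (hS : S ≤ w ^ 501)
    (hA1 : Real.exp (w ^ 500) / 2 ≤ A) (hA2 : A ≤ Real.exp (w ^ 500)) (hl0 : 0 ≤ lN)
    (hl : lN ≤ w ^ 1001) (hLm : Real.exp (w ^ 600) / 2 ≤ Lm) :
    c * (S ^ n * (4 * A) ^ (2 * n) + q * (S * (2 * lN) + 1) ^ n * S ^ 2 * Lm / A) ≤
      Lm * (Real.exp (-(w ^ 450))) ^ n := by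
  have hw0 : 0 ≤ w := by linarith
  have hw1 : 1 ≤ w := by linarith
  have hA0 : 0 < A := lt_of_lt_of_le (by positivity) hA1
  have hLm0 : 0 < Lm := lt_of_lt_of_le (by positivity) hLm
  have hn0 : (0 : ℝ) ≤ n := Nat.cast_nonneg n
  have hc : c ≤ w := le_trans (le_mul_of_one_le_right hc0 hq) hcw
  have hwe : w ≤ Real.exp w := by linarith [Real.add_one_le_exp w]
  have he1 : (2 : ℝ) ≤ Real.exp 1 := by linarith [Real.add_one_le_exp (1 : ℝ)]
  have he2 : (4 : ℝ) ≤ Real.exp 2 := by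
    have e : Real.exp 2 = Real.exp 1 * Real.exp 1 := by
      rw [← Real.exp_add]
      norm_num
    rw [e]
    nlinarith
  have hS' : S ≤ Real.exp (501 * w) := by
    refine hS.trans ?_
    have := N2_pw hw0 501
    push_cast at this
    exact this
  -- powers of `w`
  have p1 : w ≤ w ^ 2 := le_self_pow₀ hw1 (by norm_num)
  have p2 : w ^ 2 ≤ w ^ 451 := pow_le_pow_right₀ hw1 (by norm_num)
  have p3 : w ^ 451 ≤ w ^ 501 := pow_le_pow_right₀ hw1 (by norm_num)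
  have p4 : 2048 * w ^ 451 ≤ w ^ 452 := by
    have e : w ^ 452 = w * w ^ 451 := by ring
    rw [e]
    exact mul_le_mul_of_nonneg_right hw (by positivity)
  have p5 : w ^ 452 ≤ w ^ 500 := pow_le_pow_right₀ hw1 (by norm_num)
  have p6 : 2048 * w ^ 501 ≤ w ^ 502 := by
    have e : w ^ 502 = w * w ^ 501 := by ring
    rw [e]
    exact mul_le_mul_of_nonneg_right hw (by positivity)
  have p7 : w ^ 502 ≤ w ^ 600 := pow_le_pow_right₀ hw1 (by norm_num)
  have p8 : 2048 * w ≤ w ^ 2 := by nlinarith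
  have n1 : 2048 * ((n : ℝ) * w) ≤ w ^ 2 := by nlinarith
  have n2 : 2048 * ((n : ℝ) * w ^ 500) ≤ w ^ 501 := by
    have e : w ^ 501 = w * w ^ 500 := by ring
    rw [e, ← mul_assoc]
    exact mul_le_mul_of_nonneg_right hn (by positivity)
  have n3 : 2048 * ((n : ℝ) * w ^ 450) ≤ w ^ 451 := by
    have e : w ^ 451 = w * w ^ 450 := by ring
    rw [e, ← mul_assoc]
    exact mul_le_mul_of_nonneg_right hn (by positivity)
  have hρ : (Real.exp (-(w ^ 450))) ^ n = Real.exp (n * (-(w ^ 450))) := (Real.exp_nat_mul _ _).symm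
  -- first term
  have hT1 : c * (S ^ n * (4 * A) ^ (2 * n)) ≤ Lm * (Real.exp (-(w ^ 450))) ^ n / 2 := by
    have h4A : 4 * A ≤ Real.exp (2 + w ^ 500) := by
      rw [Real.exp_add]
      exact mul_le_mul he2 hA2 hA0.le (by positivity)
    calc c * (S ^ n * (4 * A) ^ (2 * n))
        ≤ Real.exp w * ((Real.exp (501 * w)) ^ n * (Real.exp (2 + w ^ 500)) ^ (2 * n)) := by
          have a1 := pow_le_pow_left₀ hS0 hS' n
          have a2 := pow_le_pow_left₀ (by positivity : (0 : ℝ) ≤ 4 * A) h4A (2 * n)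
          exact mul_le_mul (hc.trans hwe) (mul_le_mul a1 a2 (by positivity) (by positivity))
            (by positivity) (by positivity)
      _ = Real.exp (w + (n * (501 * w) + (2 * n : ℕ) * (2 + w ^ 500))) := by
          rw [← Real.exp_nat_mul, ← Real.exp_nat_mul, ← Real.exp_add, ← Real.exp_add]
      _ ≤ Real.exp (w ^ 600 + (-2 + n * (-(w ^ 450)))) := by
          apply Real.exp_le_exp.mpr
          push_cast
          linarith
      _ = Real.exp (w ^ 600) * (Real.exp (-2) * Real.exp (n * (-(w ^ 450)))) := by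
          rw [Real.exp_add, Real.exp_add]
      _ ≤ (2 * Lm) * (1 / 4 * Real.exp (n * (-(w ^ 450)))) := by
          have b1 : Real.exp (-2) ≤ 1 / 4 := by
            rw [Real.exp_neg, inv_eq_one_div]
            exact one_div_le_one_div_of_le (by norm_num) he2
          have b2 : Real.exp (w ^ 600) ≤ 2 * Lm := by linarith
          exact mul_le_mul b2 (mul_le_mul_of_nonneg_right b1 (Real.exp_nonneg _)) (by positivity)
            (by positivity)
      _ = Lm * (Real.exp (-(w ^ 450))) ^ n / 2 := by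
          rw [hρ]
          ring
  -- second term
  have hB0 : 0 ≤ S * (2 * lN) + 1 := by positivity
  have hB : S * (2 * lN) + 1 ≤ Real.exp (1503 * w) := by
    have b1 : S * (2 * lN) ≤ w ^ 501 * (2 * w ^ 1001) :=
      mul_le_mul hS (by linarith) (by positivity) (by positivity)
    have b2 : w ^ 501 * (2 * w ^ 1001) = 2 * w ^ 1502 := by ring
    have b3 : (1 : ℝ) ≤ w ^ 1502 := one_le_pow₀ hw1
    have b4 : w ^ 1503 = w * w ^ 1502 := by ring
    have b5 : 2048 * w ^ 1502 ≤ w * w ^ 1502 := mul_le_mul_of_nonneg_right hw (by positivity)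
    have b6 := N2_pw hw0 1503
    push_cast at b6
    linarith
  have hAi : 1 / A ≤ Real.exp (1 - w ^ 500) := by
    have b1 : 1 / A ≤ 1 / (Real.exp (w ^ 500) / 2) := one_div_le_one_div_of_le (by positivity) hA1
    have b2 : 1 / (Real.exp (w ^ 500) / 2) = 2 / Real.exp (w ^ 500) := by
      rw [one_div_div]
    rw [Real.exp_sub]
    refine b1.trans (b2.le.trans ?_)
    exact div_le_div_of_nonneg_right he1 (Real.exp_nonneg _)
  have hT2 : c * (q * (S * (2 * lN) + 1) ^ n * S ^ 2 * Lm / A) ≤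
      Lm * (Real.exp (-(w ^ 450))) ^ n / 2 := by
    calc c * (q * (S * (2 * lN) + 1) ^ n * S ^ 2 * Lm / A)
        = Lm * ((c * q) * ((S * (2 * lN) + 1) ^ n * (S ^ 2 * (1 / A)))) := by ring
      _ ≤ Lm * (Real.exp w * ((Real.exp (1503 * w)) ^ n *
            ((Real.exp (501 * w)) ^ 2 * Real.exp (1 - w ^ 500)))) := by
          have a1 := pow_le_pow_left₀ hB0 hB n
          have a2 := pow_le_pow_left₀ hS0 hS' 2
          have a3 : S ^ 2 * (1 / A) ≤ (Real.exp (501 * w)) ^ 2 * Real.exp (1 - w ^ 500) :=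
            mul_le_mul a2 hAi (by positivity) (by positivity)
          have a4 := mul_le_mul a1 a3 (by positivity) (by positivity)
          exact mul_le_mul_of_nonneg_left (mul_le_mul (hcw.trans hwe) a4 (by positivity)
            (by positivity)) hLm0.le
      _ = Lm * Real.exp (w + (n * (1503 * w) + ((2 : ℕ) * (501 * w) + (1 - w ^ 500)))) := by
          rw [← Real.exp_nat_mul, ← Real.exp_nat_mul, ← Real.exp_add, ← Real.exp_add,
            ← Real.exp_add]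
      _ ≤ Lm * Real.exp (-1 + n * (-(w ^ 450))) := by
          refine mul_le_mul_of_nonneg_left (Real.exp_le_exp.mpr ?_) hLm0.le
          push_cast
          linarith
      _ = Lm * (Real.exp (-1) * Real.exp (n * (-(w ^ 450)))) := by rw [Real.exp_add]
      _ ≤ Lm * (1 / 2 * Real.exp (n * (-(w ^ 450)))) := by
          have b1 : Real.exp (-1) ≤ 1 / 2 := by
            rw [Real.exp_neg, inv_eq_one_div]
            exact one_div_le_one_div_of_le (by norm_num) he1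
          exact mul_le_mul_of_nonneg_left (mul_le_mul_of_nonneg_right b1 (Real.exp_nonneg _)) hLm0.le
      _ = Lm * (Real.exp (-(w ^ 450))) ^ n / 2 := by
          rw [hρ]
          ring
  rw [mul_add]
  linarith

/-- Proof. `A = AX X`, `D = DX X`, `S = SA A`, `lN = log (2kX) ≤ w^1001`, `lN ≥ 0`. Put `n = 2^k`. Facts: `2^k CB k * 27 * 2^k ≤ 2^(2^(20k)) ≤ w` (exponents: `2k + 5 + 2 + 2^k + 2^k (3 + (k+1)) ≤ 2^(20k)`, `k+1 ≤ 2^(k+1)`, hence
`(8(k+1))^n ≤ 2^((k+4) n)`), `2048 n ≤ w`, `w ≤ exp w`.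
First term: `w (w^501)^n (4A)^(2n) ≤ exp (w + 501 n w + 2n (2 + w^500)) ≤ exp (w^502)` and `Lm ρ^n / 2 ≥ (D/2) exp (-n w^450) ≥ exp (w^600 - 2 - w^451)`.
Second term: `(1/S)(2 lN) + 1 ≤ w^501 * 2 * w^1001 + 1 ≤ w^1504`, `1/A ≤ 2 exp (-w^500)`: `w (w^1504)^n (w^501)^2 Lm * 2 exp(-w^500) ≤ Lm exp (w + 1504 n w + 1002 w + 1 - w^500) ≤ Lm exp (-w^451 - 1) ≤ Lm ρ^n / 2` (`exp (-1) ≤ 1/2`). Both terms: split the sum. -/
theorem eta_num {k X : ℕ} {w : ℝ} (hk : 1 ≤ k) (h : WW k X w) (Lm : ℝ) (hL : (DX X : ℝ) ≤ Lm) :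
    (2 ^ k * CB k) * ((1 / SA (AX X)) ^ (2 ^ k) * (4 * (AX X) : ℝ) ^ (2 ^ (k + 1))
        + 27 * 2 ^ k * ((1 / SA (AX X)) * (2 * Real.log (2 * k * X)) + 1) ^ (2 ^ k) * (1 / SA (AX X)) ^ 2 * Lm / (AX X)) ≤
      Lm * (Real.exp (-(w ^ 450))) ^ (2 ^ k) := by
  have hself : 20 * k < 2 ^ (20 * k) := Nat.lt_two_pow_self
  have hw : 2048 ≤ w := by
    refine le_trans ?_ h.big
    calc (2048 : ℝ) = 2 ^ 11 := by norm_num
      _ ≤ 2 ^ (2 ^ (20 * k)) := pow_le_pow_right₀ (by norm_num) (by omega)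
  have hn : 2048 * ((2 ^ k : ℕ) : ℝ) ≤ w := by
    refine le_trans ?_ h.big
    calc 2048 * ((2 ^ k : ℕ) : ℝ) = 2 ^ (11 + k) := by
          rw [pow_add]
          push_cast
          norm_num
      _ ≤ 2 ^ (2 ^ (20 * k)) := pow_le_pow_right₀ (by norm_num) (by omega)
  have hq : (1 : ℝ) ≤ 27 * 2 ^ k := by
    have : (1 : ℝ) ≤ 2 ^ k := one_le_pow₀ (by norm_num)
    linarith
  have hc0 : 0 ≤ (2 : ℝ) ^ k * CB k := by
    unfold CB
    positivity
  have hX : (1 : ℝ) ≤ X := by exact_mod_cast h.X1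
  have hk' : (1 : ℝ) ≤ k := by exact_mod_cast hk
  have hl0 : 0 ≤ Real.log (2 * k * X) := by
    apply Real.log_nonneg
    nlinarith
  have hmain := N2_core (n := 2 ^ k) (c := 2 ^ k * CB k) (S := 1 / SA (AX X)) (A := (AX X : ℝ))
    (lN := Real.log (2 * k * X)) (Lm := Lm) (q := 27 * 2 ^ k) hw hn hc0 hq
    ((N2_base k hk).trans h.big) (by have := h.S; positivity) h.Si h.A1 h.A2 hl0 h.lN
    (h.D1.trans hL)
  have e : 2 ^ (k + 1) = 2 * 2 ^ k := by
    rw [pow_succ, mul_comm]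
  rw [e]
  exact hmain

end Pool.Agent.H44UB
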