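import Pool.Agent.Lib.H44UB.Defs

/-!
# H44UB, chunk N3 (M, real numbers only): absorbing all losses in a power of `log X`
-/

open Finset

namespace Pool.Agent.H44UB

open Pool.Agent.HUK
open Pool.Agent.H16U
open Pool.Agent.Lib.H81A (af muV one1 logf)

/-- Proof. `K = KK k ≤ 2^(2^(k-1)+10)` so `K^2 ≤ 2^(2^k + 20)`, and `2 K² + 8 K + 2 ≤ 2^(2^k+21) + 2^(2^k+17) + ... ≤ 2^(2^k+22) ≤ 2^(2^(5k))` as `2^k + 22 ≤ 2^(5k)` for `k ≥ 1` (`2^(k-1) * 2 = 2^k`; `2^(k-1) + 10 + 3 ≤ 2^k + 20`). -/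
theorem n3_exp (k : ℕ) (hk : 1 ≤ k) : 2 * KK k ^ 2 + 8 * KK k + 2 ≤ 2 ^ (2 ^ (5 * k)) := by
  obtain ⟨j, rfl⟩ : ∃ j, k = j + 1 := ⟨k - 1, by omega⟩
  have hK : KK (j + 1) = 2 * (2 ^ (2 ^ j) * 2 ^ 8) + 2 := by
    unfold KK JJ
    rw [Nat.add_sub_cancel, pow_add]
  have hu : 2 ≤ 2 ^ (2 ^ j) := by
    calc 2 = 2 ^ 1 := rfl
      _ ≤ 2 ^ (2 ^ j) := Nat.pow_le_pow_right (by norm_num) (Nat.one_le_two_pow)
  have he : 2 ^ j + 2 ^ j + 20 ≤ 2 ^ (5 * (j + 1)) := by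
    have e : 2 ^ (5 * (j + 1)) = 32 * 32 ^ j := by
      rw [pow_mul, pow_succ, mul_comm]
      norm_num
    have h1 : 2 ^ j ≤ 32 ^ j := Nat.pow_le_pow_left (by norm_num) j
    have h2 : 1 ≤ 32 ^ j := Nat.one_le_pow _ _ (by norm_num)
    rw [e]
    omega
  have hP : 2 ^ (2 ^ j) * 2 ^ (2 ^ j) * 2 ^ 20 ≤ 2 ^ (2 ^ (5 * (j + 1))) := by
    rw [← pow_add, ← pow_add]
    exact Nat.pow_le_pow_right (by norm_num) he
  refine le_trans ?_ hP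
  rw [hK]
  generalize 2 ^ (2 ^ j) = u at hu
  nlinarith

theorem N3_w {k X : ℕ} {w : ℝ} (hk : 1 ≤ k) (h : WW k X w) : 2048 ≤ w ∧ 20 * (k : ℝ) + 1 ≤ w := by
  have hself : 20 * k < 2 ^ (20 * k) := Nat.lt_two_pow_self
  constructor
  · refine le_trans ?_ h.big
    calc (2048 : ℝ) = 2 ^ 11 := by norm_num
      _ ≤ 2 ^ (2 ^ (20 * k)) := pow_le_pow_right₀ (by norm_num) (by omega)
  · refine le_trans ?_ h.big
    have h1 : 20 * k + 1 ≤ 2 ^ (2 ^ (20 * k)) := by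
      have h2 : 2 ^ (20 * k) < 2 ^ (2 ^ (20 * k)) := Nat.lt_two_pow_self
      omega
    exact_mod_cast h1

/-- The numbers `L = log X` and `QQ`. -/
theorem N3_L {k X : ℕ} {w : ℝ} (hk : 1 ≤ k) (h : WW k X w) :
    2048 ≤ Real.log X ∧ 20 * (k : ℝ) + 1 ≤ Real.log X ∧ 0 ≤ QQ (2 * k * X) ∧
      QQ (2 * k * X) ≤ (Real.log X) ^ 2 := by
  obtain ⟨h1, h2⟩ := N3_w hk h
  have hw1 : 1 ≤ w := by linarith
  have h3 : w ≤ Real.log X := by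
    rw [h.L]
    exact le_self_pow₀ hw1 (by norm_num)
  refine ⟨h1.trans h3, h2.trans h3, ?_, ?_⟩
  · unfold QQ
    have : 0 ≤ Real.log (((2 * k * X : ℕ) : ℝ) + 1) := by
      apply Real.log_nonneg
      have : (0 : ℝ) ≤ ((2 * k * X : ℕ) : ℝ) := Nat.cast_nonneg _
      linarith
    linarith
  · refine h.Q.trans ?_
    rw [h.L, ← pow_mul]
    exact pow_le_pow_right₀ hw1 (by norm_num)

/-- Proof. `L = log X = w^1000 ≥ w`, `16 k + 1 ≤ w ≤ L`, `QQ ≤ w^1001 ≤ L^2`, `L ≥ 1`. With `K = KK k`, `u = exp (-s')`, `1/exp s' = u`: the second summand is `16 k X² u (L^(2K))^3 QQ^(K²+K) ≤ 16 k X² u L^(6K + 2(K²+K))`. So the left side is at most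
`X² u (1 + 16 k) L^(2K²+8K) ≤ X² u L^(2K²+8K+1)`, and `n3_exp`. (`((L^2)^K)^3 = L^(6K)`.) -/
theorem n3_t2 {k X : ℕ} {w : ℝ} (hk : 1 ≤ k) (h : WW k X w) (s' : ℝ) :
    (X : ℝ) ^ 2 * Real.exp (-s') + 2 * ((2 * k * X) * ((((Real.log X) ^ 2) ^ KK k) ^ 3 / Real.exp s') *
      QQ (2 * k * X) ^ (KK k ^ 2 + KK k) * (4 * X)) ≤ (X : ℝ) ^ 2 * Real.exp (-s') * (Real.log X) ^ (2 ^ (2 ^ (5 * k))) := by
  obtain ⟨hL1, hL2, hQ0, hQ⟩ := N3_L hk h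
  have hP := n3_exp k hk
  generalize 2 ^ (2 ^ (5 * k)) = P at hP
  generalize KK k = K at hP
  generalize Real.log X = L at hL1 hL2 hQ
  generalize QQ (2 * k * X) = Q at hQ0 hQ
  have hL : 1 ≤ L := by linarith
  have h1 : Q ^ (K ^ 2 + K) ≤ L ^ (2 * (K ^ 2 + K)) := by
    rw [pow_mul]
    exact pow_le_pow_left₀ hQ0 hQ _
  have h2 : ((L ^ 2) ^ K) ^ 3 = L ^ (6 * K) := by
    rw [← pow_mul, ← pow_mul]
    congr 1
    ring
  have h3 : (1 : ℝ) ≤ L ^ (2 * K ^ 2 + 8 * K) := one_le_pow₀ hL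
  have h4 : L ^ (2 * K ^ 2 + 8 * K + 1) ≤ L ^ P := pow_le_pow_right₀ hL (by omega)
  have hk0 : (0 : ℝ) ≤ k := Nat.cast_nonneg k
  have hX0 : (0 : ℝ) ≤ X := Nat.cast_nonneg X
  have hu : 0 ≤ Real.exp (-s') := Real.exp_nonneg _
  have h5 : 1 + 16 * (k : ℝ) * L ^ (2 * K ^ 2 + 8 * K) ≤ L ^ P := by
    calc 1 + 16 * (k : ℝ) * L ^ (2 * K ^ 2 + 8 * K)
        ≤ L ^ (2 * K ^ 2 + 8 * K) + 16 * (k : ℝ) * L ^ (2 * K ^ 2 + 8 * K) := by linarith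
      _ = (1 + 16 * (k : ℝ)) * L ^ (2 * K ^ 2 + 8 * K) := by ring
      _ ≤ L * L ^ (2 * K ^ 2 + 8 * K) :=
          mul_le_mul_of_nonneg_right (by linarith) (by positivity)
      _ = L ^ (2 * K ^ 2 + 8 * K + 1) := (pow_succ' L _).symm
      _ ≤ L ^ P := h4
  calc (X : ℝ) ^ 2 * Real.exp (-s') + 2 * ((2 * k * X) * (((L ^ 2) ^ K) ^ 3 / Real.exp s') *
        Q ^ (K ^ 2 + K) * (4 * X))
      = (X : ℝ) ^ 2 * Real.exp (-s') +
        (X : ℝ) ^ 2 * Real.exp (-s') * (16 * k) * (L ^ (6 * K) * Q ^ (K ^ 2 + K)) := by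
        rw [h2, div_eq_mul_inv, ← Real.exp_neg]
        ring
    _ ≤ (X : ℝ) ^ 2 * Real.exp (-s') +
        (X : ℝ) ^ 2 * Real.exp (-s') * (16 * k) * (L ^ (6 * K) * L ^ (2 * (K ^ 2 + K))) := by
        have : L ^ (6 * K) * Q ^ (K ^ 2 + K) ≤ L ^ (6 * K) * L ^ (2 * (K ^ 2 + K)) :=
          mul_le_mul_of_nonneg_left h1 (by positivity)
        have h6 : 0 ≤ (X : ℝ) ^ 2 * Real.exp (-s') * (16 * k) := by positivity
        linarith [mul_le_mul_of_nonneg_left this h6]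
    _ = (X : ℝ) ^ 2 * Real.exp (-s') * (1 + 16 * (k : ℝ) * L ^ (2 * K ^ 2 + 8 * K)) := by
        rw [← pow_add, show 6 * K + 2 * (K ^ 2 + K) = 2 * K ^ 2 + 8 * K by ring]
        ring
    _ ≤ (X : ℝ) ^ 2 * Real.exp (-s') * L ^ P := mul_le_mul_of_nonneg_left h5 (by positivity)

/-- Proof. `exp (-w^450) ≤ exp (-s')`, `2k ≤ L`, `(L^2)^K QQ^K QQ ≤ L^(2K) L^(2K+2)`, total exponent `4K + 3 ≤ 2K² + 8K + 2`. -/
theorem n3_eta {k X : ℕ} {w : ℝ} (hk : 1 ≤ k) (h : WW k X w) (s' : ℝ) (hs : s' ≤ w ^ 400) :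
    (2 * k * X * X * Real.exp (-(w ^ 450))) * ((Real.log X) ^ 2) ^ KK k * QQ (2 * k * X) ^ KK k * QQ (2 * k * X) ≤
      (X : ℝ) ^ 2 * Real.exp (-s') * (Real.log X) ^ (2 ^ (2 ^ (5 * k))) := by
  obtain ⟨hw, -⟩ := N3_w hk h
  obtain ⟨hL1, hL2, hQ0, hQ⟩ := N3_L hk h
  have hP := n3_exp k hk
  have hK : 2 ≤ KK k := by
    unfold KK
    omega
  generalize 2 ^ (2 ^ (5 * k)) = P at hP
  generalize KK k = K at hP hK
  generalize Real.log X = L at hL1 hL2 hQ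
  generalize QQ (2 * k * X) = Q at hQ0 hQ
  have hL : 1 ≤ L := by linarith
  have h0 : Real.exp (-(w ^ 450)) ≤ Real.exp (-s') := by
    apply Real.exp_le_exp.mpr
    have : w ^ 400 ≤ w ^ 450 := pow_le_pow_right₀ (by linarith) (by norm_num)
    linarith
  have h1 : Q ^ K * Q ≤ L ^ (2 * K + 2) := by
    have e : L ^ (2 * K + 2) = (L ^ 2) ^ (K + 1) := by
      rw [← pow_mul]
      congr 1
    rw [e, ← pow_succ]
    exact pow_le_pow_left₀ hQ0 hQ _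
  have h4 : L ^ (4 * K + 3) ≤ L ^ P := pow_le_pow_right₀ hL (by nlinarith)
  have hk0 : (0 : ℝ) ≤ k := Nat.cast_nonneg k
  have hX0 : (0 : ℝ) ≤ X := Nat.cast_nonneg X
  have hQ1 : 0 ≤ Q ^ K * Q := by positivity
  calc (2 * k * X * X * Real.exp (-(w ^ 450))) * (L ^ 2) ^ K * Q ^ K * Q
      = (X : ℝ) ^ 2 * (Real.exp (-(w ^ 450)) * ((2 * k) * (L ^ (2 * K) * (Q ^ K * Q)))) := by
        rw [← pow_mul]
        ring
    _ ≤ (X : ℝ) ^ 2 * (Real.exp (-s') * (L * (L ^ (2 * K) * L ^ (2 * K + 2)))) := by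
        refine mul_le_mul_of_nonneg_left ?_ (by positivity)
        refine mul_le_mul h0 ?_ (by positivity) (Real.exp_nonneg _)
        refine mul_le_mul (by linarith) ?_ (by positivity) (by linarith)
        exact mul_le_mul_of_nonneg_left h1 (by positivity)
    _ = (X : ℝ) ^ 2 * Real.exp (-s') * L ^ (4 * K + 3) := by
        rw [show 4 * K + 3 = 1 + (2 * K + (2 * K + 2)) by ring, pow_add, pow_add, pow_one]
        ring
    _ ≤ (X : ℝ) ^ 2 * Real.exp (-s') * L ^ P := mul_le_mul_of_nonneg_left h4 (by positivity)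

/-- `X^(2 - c)` against `X² exp (-s')`. -/
theorem N3_rpow {k X : ℕ} {w : ℝ} (hk : 1 ≤ k) (h : WW k X w) (s' : ℝ) (hs : s' ≤ w ^ 400) {c : ℝ}
    (hc : 1 / 4 ≤ c) : (X : ℝ) ^ (2 - c : ℝ) ≤ (X : ℝ) ^ 2 * Real.exp (-s') := by
  obtain ⟨hw, -⟩ := N3_w hk h
  have hX : (0 : ℝ) < X := by
    have := h.X1
    exact_mod_cast this
  have h1 : (X : ℝ) ^ (2 - c : ℝ) = (X : ℝ) ^ 2 * Real.exp (-(c * Real.log X)) := by
    rw [Real.rpow_sub hX, Real.rpow_two, div_eq_mul_inv, ← Real.rpow_neg hX.le,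
      Real.rpow_def_of_pos hX]
    congr 2
    ring
  rw [h1, h.L]
  refine mul_le_mul_of_nonneg_left (Real.exp_le_exp.mpr ?_) (by positivity)
  have h2 : 2048 * w ^ 400 ≤ w ^ 401 := by
    have e : w ^ 401 = w * w ^ 400 := by ring
    rw [e]
    exact mul_le_mul_of_nonneg_right hw (by positivity)
  have h3 : w ^ 401 ≤ w ^ 1000 := pow_le_pow_right₀ (by linarith) (by norm_num)
  have h4 : (1 / 4 : ℝ) * w ^ 1000 ≤ c * w ^ 1000 := mul_le_mul_of_nonneg_right hc (by positivity)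
  have h5 : 0 ≤ w ^ 400 := by positivity
  linarith

/-- Proof. `X^(1/2) X = X² X^(-1/2) = X² exp (-w^1000/2) ≤ X² exp (-s')`; `4 (L^2)^K QQ^K ≤ L^(4K+1)`. -/
theorem n3_triv {k X : ℕ} {w : ℝ} (hk : 1 ≤ k) (h : WW k X w) (s' : ℝ) (hs : s' ≤ w ^ 400) (T : ℝ) (hT0 : 0 ≤ T)
    (hT : T ≤ (X : ℝ) ^ (1 / 2 : ℝ)) :
    T * ((Real.log X) ^ 2) ^ KK k * QQ (2 * k * X) ^ KK k * (4 * X) ≤
      (X : ℝ) ^ 2 * Real.exp (-s') * (Real.log X) ^ (2 ^ (2 ^ (5 * k))) := by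
  obtain ⟨hL1, hL2, hQ0, hQ⟩ := N3_L hk h
  have hP := n3_exp k hk
  have hX : (0 : ℝ) < X := by
    have := h.X1
    exact_mod_cast this
  have h0 := N3_rpow hk h s' hs (c := 1 / 2) (by norm_num)
  have h01 : (X : ℝ) ^ (2 - 1 / 2 : ℝ) = (X : ℝ) ^ (1 / 2 : ℝ) * X := by
    rw [show (2 - 1 / 2 : ℝ) = 1 / 2 + 1 by norm_num, Real.rpow_add hX, Real.rpow_one]
  rw [h01] at h0
  generalize 2 ^ (2 ^ (5 * k)) = P at hP
  generalize KK k = K at hP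
  generalize Real.log X = L at hL1 hL2 hQ
  generalize QQ (2 * k * X) = Q at hQ0 hQ
  have hL : 1 ≤ L := by linarith
  have h1 : Q ^ K ≤ L ^ (2 * K) := by
    rw [pow_mul]
    exact pow_le_pow_left₀ hQ0 hQ _
  have h4 : L ^ (4 * K + 1) ≤ L ^ P := pow_le_pow_right₀ hL (by nlinarith)
  calc T * (L ^ 2) ^ K * Q ^ K * (4 * X) = (T * X) * (4 * (L ^ (2 * K) * Q ^ K)) := by
        rw [← pow_mul]
        ring
    _ ≤ ((X : ℝ) ^ (1 / 2 : ℝ) * X) * (L * (L ^ (2 * K) * L ^ (2 * K))) := by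
        refine mul_le_mul (mul_le_mul_of_nonneg_right hT hX.le) ?_ (by positivity) (by positivity)
        refine mul_le_mul (by linarith) ?_ (by positivity) (by linarith)
        exact mul_le_mul_of_nonneg_left h1 (by positivity)
    _ = ((X : ℝ) ^ (1 / 2 : ℝ) * X) * L ^ (4 * K + 1) := by
        rw [show 4 * K + 1 = 1 + (2 * K + 2 * K) by ring, pow_add, pow_add, pow_one]
    _ ≤ ((X : ℝ) ^ 2 * Real.exp (-s')) * L ^ P := mul_le_mul h0 h4 (by positivity) (by positivity)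

/-- Proof. `X^(7/4) = X² exp (-w^1000/4) ≤ X² exp (-s')` and `1 ≤ L^P`. -/
theorem n3_lp {k X : ℕ} {w : ℝ} (hk : 1 ≤ k) (h : WW k X w) (s' : ℝ) (hs : s' ≤ w ^ 400) :
    (X : ℝ) ^ (7 / 4 : ℝ) ≤ (X : ℝ) ^ 2 * Real.exp (-s') * (Real.log X) ^ (2 ^ (2 ^ (5 * k))) := by
  obtain ⟨hL1, -, -, -⟩ := N3_L hk h
  have h0 := N3_rpow hk h s' hs (c := 1 / 4) le_rfl
  rw [show (2 - 1 / 4 : ℝ) = 7 / 4 by norm_num] at h0
  refine h0.trans (le_mul_of_one_le_right (by positivity) ?_)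
  exact one_le_pow₀ (by linarith)

theorem N3_four {J : ℕ} (hJ : 5 ≤ J) : 4 * J + 7 ≤ 2 ^ J := by
  induction J, hJ using Nat.le_induction with
  | base => norm_num
  | succ J hJ ih =>
    rw [pow_succ]
    omega

/-- Proof. `J = JJ k`: `1 + 2^J (4J + 5 + 1) ≤ 2^J (4J+7) ≤ 4^J ≤ L^(2J)` (`4J + 7 ≤ 2^J` for `J ≥ 5`, `L ≥ 2`), and `2J ≤ KK k ≤ 2^(2^(5k))`. -/
theorem n3_sum {k X : ℕ} {w : ℝ} (hk : 1 ≤ k) (h : WW k X w) :
    1 + 2 ^ JJ k * ((4 * (JJ k : ℝ) + 5) + 1) ≤ (Real.log X) ^ (2 ^ (2 ^ (5 * k))) := by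
  obtain ⟨hL1, -, -, -⟩ := N3_L hk h
  have hP := n3_exp k hk
  have hJ : 5 ≤ JJ k := by
    unfold JJ
    calc 5 ≤ 2 ^ 8 := by norm_num
      _ ≤ 2 ^ (2 ^ (k - 1) + 8) := Nat.pow_le_pow_right (by norm_num) (Nat.le_add_left 8 _)
  have hKJ : KK k = 2 * JJ k + 2 := rfl
  rw [hKJ] at hP
  generalize 2 ^ (2 ^ (5 * k)) = P at hP
  generalize JJ k = J at hP hJ
  generalize Real.log X = L at hL1
  have h1 : (4 * (J : ℝ) + 7) ≤ 2 ^ J := by exact_mod_cast N3_four hJ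
  have h2 : (1 : ℝ) ≤ 2 ^ J := one_le_pow₀ (by norm_num)
  calc 1 + 2 ^ J * ((4 * (J : ℝ) + 5) + 1) ≤ 2 ^ J * (4 * (J : ℝ) + 7) := by linarith
    _ ≤ 2 ^ J * 2 ^ J := mul_le_mul_of_nonneg_left h1 (by positivity)
    _ = 2 ^ (2 * J) := by rw [← pow_add, two_mul]
    _ ≤ L ^ (2 * J) := pow_le_pow_left₀ (by norm_num) (by linarith) _
    _ ≤ L ^ P := pow_le_pow_right₀ (by linarith) (by nlinarith)

end Pool.Agent.H44UB
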