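import Pool.Agent.Lib.H44UB.T5
import Pool.Agent.Lib.H44UB.E2
import Pool.Agent.Lib.H44UB.E3
import Pool.Agent.Lib.H44UB.B1
import Pool.Agent.Lib.H44UB.N0
import Pool.Agent.Lib.H44UB.N1
import Pool.Agent.Lib.H44UB.N2
import Pool.Agent.Lib.H44UB.N3

/-!
# H44UB, chunk B2 (M): everything known about the functional
-/

open Finset

namespace Pool.Agent.H44UB

open Pool.Agent.HUK
open Pool.Agent.H16U
open Pool.Agent.Lib.H81A (af muV one1 logf)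

/-- Proof. `B` = maximum of `B0` and the `B` of `ww_exists` (`RG.mono`); `w = (log X)^(1/1000)`, `h : WW k X w`, `s' = s / mk B0 k`, `0 < s' ≤ s ≤ (log X)^(2/5) = w^400` (`mk_one_le`; `hs.lo` gives `s > 0`). `M = ((log X)^2)^(KK k) ≥ 0`.
`t2`: `t2_cut` with `K = KK k`, `R = exp s'`, `E = X² exp (-s')`, `P n = (exp s ≤ n ∧ n ≤ X^cs k)`, `h` from `t2_TII`; then `n3_t2`.
`e`, `el`: `eta_local` with `ρ = exp (-w^450)` (`n1_A`, `h.S`, `eta_num`) gives `hloc` with `r = 2kX * X * exp (-w^450)`; `eta_LFU` with `j = KK k`; then `n3_eta`. -/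
theorem hypU_of_TIIu (B0 : ℕ) (hT : TIIu B0) : ∃ B : ℕ, ∀ k : ℕ, 3 ≤ k → ∀ X : ℕ, RG B k X →
    WW k X ((Real.log X) ^ (1 / 1000 : ℝ)) ∧ ∀ s : ℝ, SR X s →
    ∀ f : ℕ → ℤ → ℂ, (∀ j, j < k → Bdd X (f j)) → GG X (k - 1) (f 0) ≤ (X : ℝ) ^ k * Real.exp (-s) →
    HypU X k f (AX X) (DX X) (KK k) (((Real.log X) ^ 2) ^ KK k) (Real.exp s) ((X : ℝ) ^ cs k)
      ((X : ℝ) ^ 2 * Real.exp (-(s / mk B0 k)) * (Real.log X) ^ (2 ^ (2 ^ (5 * k)))) := by
  obtain ⟨B1, hB1⟩ := ww_exists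
  refine ⟨B1 + B0, fun k hk X hRG => ?_⟩
  have hW := hB1 k X (by omega) (hRG.mono (by omega))
  have hR0 : RG B0 k X := hRG.mono (by omega)
  refine ⟨hW, fun s hs f hf hG => ?_⟩
  obtain ⟨w, hw⟩ : ∃ w, w = (Real.log X) ^ (1 / 1000 : ℝ) := ⟨_, rfl⟩
  rw [← hw] at hW
  have hL2 : 2 ≤ Real.log X := hR0.two_le
  have hL0 : 0 < Real.log X := by linarith
  have h400 : (Real.log X) ^ (2 / 5 : ℝ) = w ^ 400 := by
    rw [hw, ← Real.rpow_natCast, ← Real.rpow_mul hL0.le]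
    norm_num
  have hs1 : s ≤ w ^ 400 := by
    rw [← h400]
    exact hs.hi
  have hs0 : 0 < s := lt_of_lt_of_le (by positivity) hs.lo
  have hs' : s / mk B0 k ≤ w ^ 400 := le_trans (div_le_self hs0.le (mk_one_le B0 k)) hs1
  have hM : 0 ≤ ((Real.log X) ^ 2) ^ KK k := by positivity
  have hA := n1_A (by omega) hW
  have hloc : ∀ m i : ℕ, 1 ≤ m → ‖∑ d ∈ Ioc i (2 * k * X), ((eta (AX X) (DX X) d : ℝ) : ℂ) * Psi X k f ((d : ℤ) * m)‖ ≤
      (2 * k * X * X * Real.exp (-(w ^ 450))) / m := by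
    intro m i hm
    refine (eta_local k X (AX X) (DX X) (Real.exp (-(w ^ 450))) (by omega) hW.X1 hA.1 hA.2.1 hW.S hA.2.2 (Real.exp_pos _).le
      (fun Lm hLm => eta_num (by omega) hW Lm hLm) f hf m i hm).trans (le_of_eq ?_)
    ring
  have hr : (0 : ℝ) ≤ 2 * k * X * X * Real.exp (-(w ^ 450)) := by positivity
  refine ⟨?_, ?_, ?_⟩
  · intro F G hF hGb hsup
    refine le_trans (t2_cut X k f hf (KK k) (((Real.log X) ^ 2) ^ KK k) (Real.exp (s / mk B0 k))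
      ((X : ℝ) ^ 2 * Real.exp (-(s / mk B0 k))) hM (Real.exp_pos _) (fun n => Real.exp s ≤ n ∧ (n : ℝ) ≤ (X : ℝ) ^ cs k) ?_
      F G hF hGb hsup) ?_
    · intro F G hF hG' hs2
      exact t2_TII hT k hk X hR0 s hs f hf hG F G hF hG' hs2
    · exact n3_t2 (by omega) hW _
  · intro G hGb
    exact (eta_LFU X k (by omega) f hf (AX X) (DX X) _ hr hloc (KK k) _ hM G hGb).1.trans (n3_eta (by omega) hW _ hs')
  · intro G hGb
    exact (eta_LFU X k (by omega) f hf (AX X) (DX X) _ hr hloc (KK k) _ hM G hGb).2.trans (n3_eta (by omega) hW _ hs')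

end Pool.Agent.H44UB
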