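import Pool.Agent.Lib.H16U.Reg
import Pool.Agent.Lib.HUK.BH9

/-!
# Project H44UB: module B of THEOREM U (MP_f686a1_nt), type II sums give the primes, uniformly in `k`. Definitions

`N = 2 k X`, `L = log X`, `w = L^(1/1000)`. The letters `LF`, `SP`, `BN`, `lowT`, `highT`, `fS`, ... are those of `HUK/BH0.lean`.
-/

open Finset

namespace Pool.Agent.H44UB

open Pool.Agent.HUK
open Pool.Agent.H16U
open Pool.Agent.Lib.H81A (af muV one1 logf)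

noncomputable section

/-- `|F| ≤ M τ_j` on `1, …, N` (`τ_j = one1 ^ j`). This replaces `BN N B F`: products add the `j` and multiply the `M`. -/
def BD (N j : ℕ) (M : ℝ) (F : ArithmeticFunction ℝ) : Prop :=
  ∀ n : ℕ, 1 ≤ n → n ≤ N → |F n| ≤ M * (one1 ^ j : ArithmeticFunction ℝ) n

/-- `1 + log (N + 1)`. -/
def QQ (N : ℕ) : ℝ := 1 + Real.log ((N : ℝ) + 1)

/-- The order of Heath-Brown's identity: `cs k * JJ k = 16`. -/
def JJ (k : ℕ) : ℕ := 2 ^ (2 ^ (k - 1) + 8)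

/-- The maximal number of factors. -/
def KK (k : ℕ) : ℕ := 2 * JJ k + 2

/-- The tiny primes are in `(A, 4 A]`. -/
def AX (X : ℕ) : ℕ := ⌊Real.exp ((Real.log X) ^ (1 / 2 : ℝ))⌋₊

/-- The cutoff `D`. -/
def DX (X : ℕ) : ℕ := ⌊Real.exp ((Real.log X) ^ (3 / 5 : ℝ))⌋₊

/-- The cutoff `z` of Heath-Brown's identity. -/
def zX (k X : ℕ) : ℕ := ⌊(X : ℝ) ^ (cs k / 8)⌋₊

/-- The constant of `HUK/B13`. -/
def CB (k : ℕ) : ℝ := 4 * 2 ^ (2 ^ k) * (8 * (k + 1)) ^ (2 ^ k)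

/-- The part of `F` where `|F| ≤ R`. -/
def keepR (R : ℝ) (F : ArithmeticFunction ℝ) : ArithmeticFunction ℝ := af fun n => if |F n| ≤ R then F n else 0

/-- The part of `F` where `|F| > R`. -/
def cutR (R : ℝ) (F : ArithmeticFunction ℝ) : ArithmeticFunction ℝ := af fun n => if |F n| ≤ R then 0 else F n

/-- What is known about the functional, for coefficients bounded by `M τ_K`: type II with a factor supported on `[lo, hi]`, and the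
error `η`. -/
structure HypU (X k : ℕ) (f : ℕ → ℤ → ℂ) (A D K : ℕ) (M lo hi E : ℝ) : Prop where
  t2 : ∀ F G, BD (2 * k * X) K M F → BD (2 * k * X) K M G →
    (∀ n : ℕ, 1 ≤ n → n ≤ 2 * k * X → F n ≠ 0 → lo ≤ n ∧ (n : ℝ) ≤ hi) → ‖LF X k f (F * G)‖ ≤ E
  e : ∀ G, BD (2 * k * X) K M G → ‖LF X k f (G * fE A D)‖ ≤ E
  el : ∀ G, BD (2 * k * X) K M G → ‖LF X k f (G * fEL A D)‖ ≤ E

/-- The sizes and supports of the factors. -/
structure SizU (N A D z : ℕ) (Y M lo hi : ℝ) : Prop where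
  M1 : 1 ≤ M
  mu : BD N 1 M (muV z) ∧ SP N Y (muV z)
  s : BD N 1 M (fS A D) ∧ SP N Y (fS A D)
  sl : BD N 1 M (fSL A D) ∧ SP N Y (fSL A D)
  v : BD N 1 M (fV A D)
  vl : BD N 1 M (fVL A D)
  one : BD N 1 M one1
  log : BD N 1 M logf
  u : BD N 1 M (fU A)
  ul : BD N 1 M (fUL A)
  us : ∀ n : ℕ, 1 ≤ n → n ≤ N → (fU A n ≠ 0 ∨ fUL A n ≠ 0) → lo ≤ n ∧ (n : ℝ) ≤ hi
  S : 0 < SA A

/-- The basic numbers in the regime, `w = (log X)^(1/1000)`. -/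
structure WW (k X : ℕ) (w : ℝ) : Prop where
  def_w : w = (Real.log X) ^ (1 / 1000 : ℝ)
  big : (2 : ℝ) ^ (2 ^ (20 * k)) ≤ w
  L : Real.log X = w ^ 1000
  A1 : Real.exp (w ^ 500) / 2 ≤ AX X
  A2 : (AX X : ℝ) ≤ Real.exp (w ^ 500)
  D1 : Real.exp (w ^ 600) / 2 ≤ DX X
  D2 : (DX X : ℝ) ≤ Real.exp (w ^ 600)
  S : 0 < SA (AX X)
  Si : 1 / SA (AX X) ≤ w ^ 501
  X1 : 1 ≤ X
  kX : 2 * (k : ℝ) ≤ X
  lN : Real.log (2 * k * X) ≤ w ^ 1001
  Q : QQ (2 * k * X) ≤ w ^ 1001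

end

end Pool.Agent.H44UB
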