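import Pool.Agent.Lib.H44UB.Defs

/-!
# H44UB, chunk E1 (S): `HUK/B13` with the explicit constant
-/

open Finset

namespace Pool.Agent.H44UB

open Pool.Agent.HUK
open Pool.Agent.H16U
open Pool.Agent.Lib.H81A (af muV one1 logf)

private theorem E1_left (X k m : ℕ) (f : ℕ → ℤ → ℂ) (lo hi : ℤ) (g : ℤ → ℝ) :
    ∑ z ∈ Ioc lo hi ×ˢ Ioo (-(2 * X : ℤ)) (2 * X),
      (∏ i : Fin k, f i (z.1 * m - ((k : ℤ) - i) * z.2)) *
        (((g z.1 : ℝ) : ℂ) * (if z.2 ∈ Ioo (-(2 * X : ℤ)) (2 * X) then 1 else 0)) =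
    ∑ d ∈ Ioc lo hi, ((g d : ℝ) : ℂ) * Psi X k f (d * m) := by
  rw [Finset.sum_product]
  refine Finset.sum_congr rfl fun d _ => ?_
  unfold Psi
  rw [Finset.mul_sum]
  refine Finset.sum_congr rfl fun h hh => ?_
  simp only [hh, if_true, mul_one]
  rw [mul_comm, Finset.prod_range]

private theorem E1_card (X k m H L : ℕ) (lo hi : ℤ) (hL : hi - lo ≤ L) (hHL : H ≤ L) (hmH : m * H ≤ 4 * X) (hX : 1 ≤ X) :
    ((Ioc (lo - k * H) hi ×ˢ Ioo (-(2 * X : ℤ) - m * H) (2 * X)).card : ℝ) ≤ 8 * (k + 1) * L * X := by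
  rw [Finset.card_product, Int.card_Ioc, Int.card_Ioo]
  have h1 : (hi - (lo - k * H)).toNat ≤ (k + 1) * L := by
    have h2 : (k : ℤ) * H ≤ k * L := by exact_mod_cast Nat.mul_le_mul_left k hHL
    have h3 : hi - (lo - k * H) ≤ (((k + 1) * L : ℕ) : ℤ) := by
      push_cast
      linarith
    exact Int.toNat_le.mpr h3
  have h4 : ((2 * X : ℤ) - (-(2 * X : ℤ) - m * H) - 1).toNat ≤ 8 * X := by
    have h5 : ((m : ℤ) * H) ≤ 4 * X := by exact_mod_cast hmH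
    exact Int.toNat_le.mpr (by push_cast; linarith)
  have h6 := Nat.mul_le_mul h1 h4
  have h7 : (((hi - (lo - k * H)).toNat * ((2 * X : ℤ) - (-(2 * X : ℤ) - m * H) - 1).toNat : ℕ) : ℝ) ≤
      (((k + 1) * L * (8 * X) : ℕ) : ℝ) := by exact_mod_cast h6
  refine h7.trans (le_of_eq ?_)
  push_cast
  ring

private theorem E1_right (X k m : ℕ) (lo hi : ℤ) (g : ℤ → ℝ) (hX : 1 ≤ X) (j : Fin k → ℤ) :
    ‖∑ z ∈ Ioc lo hi ×ˢ Ioo (-(2 * X : ℤ)) (2 * X),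
      DL (List.ofFn fun i : Fin k => j i • (((k : ℤ) - i, (m : ℤ)) : ℤ × ℤ))
        (fun z : ℤ × ℤ => ((g z.1 : ℝ) : ℂ) * (if z.2 ∈ Ioo (-(2 * X : ℤ)) (2 * X) then 1 else 0)) z‖ ≤
    |∑ d ∈ Ioc lo hi, ∏ w : Finset (Fin k), g (d + sgb (fun i => (k : ℤ) - i) j w)| * (4 * X) := by
  have hb := fun z : ℤ × ℤ => b11_mul (List.ofFn fun i : Fin k => j i • (((k : ℤ) - i, (m : ℤ)) : ℤ × ℤ))
    (fun d => ((g d : ℝ) : ℂ)) (fun h => if h ∈ Ioo (-(2 * X : ℤ)) (2 * X) then (1 : ℂ) else 0) z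
  rw [Finset.sum_congr rfl fun z _ => hb z, Finset.sum_product]
  simp only [List.map_ofFn]
  rw [← Finset.sum_mul_sum, norm_mul]
  refine mul_le_mul ?_ ?_ (norm_nonneg _) (abs_nonneg _)
  · have h1 : ∀ d, DL (List.ofFn (Prod.fst ∘ fun i : Fin k => j i • (((k : ℤ) - i, (m : ℤ)) : ℤ × ℤ))) (fun d => ((g d : ℝ) : ℂ)) d =
        ((∏ w : Finset (Fin k), g (d + sgb (fun i => (k : ℤ) - i) j w) : ℝ) : ℂ) := by
      intro d
      rw [b11_real]
      congr 1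
      refine Finset.prod_congr rfl fun w _ => ?_
      congr 2
      unfold sgb
      refine Finset.sum_congr rfl fun i _ => ?_
      simp [mul_comm]
    rw [Finset.sum_congr rfl fun d _ => h1 d, ← Complex.ofReal_sum, Complex.norm_real, Real.norm_eq_abs]
  · refine (norm_sum_le _ _).trans ?_
    refine (Finset.sum_le_sum fun h _ => b11_le _ _ (fun y => ?_) h).trans ?_
    · by_cases hy : y ∈ Ioo (-(2 * X : ℤ)) (2 * X)
      · simp [hy]
      · simp [hy]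
    · rw [Finset.sum_const, nsmul_eq_mul, mul_one, Int.card_Ioo]
      have h2 : ((2 * X : ℤ) - -(2 * X : ℤ) - 1).toNat ≤ 4 * X := Int.toNat_le.mpr (by push_cast; linarith)
      have h3 : ((((2 * X : ℤ) - -(2 * X : ℤ) - 1).toNat : ℕ) : ℝ) ≤ ((4 * X : ℕ) : ℝ) := by exact_mod_cast h2
      refine h3.trans (le_of_eq ?_)
      push_cast
      ring

/-- Proof. Copy `HUK/B13.lean` (its private lemmas with new names): the proof of `b13_elim` has the constant `4 * 2^(2^k) * (8 (k+1))^(2^k)` (which is `CB k`; if the exponent there is `2^k - 1`, the larger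
exponent is allowed as `8 (k+1) ≥ 1`). -/
theorem b13C (k : ℕ) (hk : 2 ≤ k) : ∀ X m H L : ℕ, 1 ≤ X → 1 ≤ m → 1 ≤ H → H ≤ L → m * H ≤ 4 * X →
    ∀ f : ℕ → ℤ → ℂ, (∀ j, j < k → Bdd X (f j)) → ∀ lo hi : ℤ, hi - lo ≤ L → ∀ g : ℤ → ℝ, (∀ d, d ∉ Ioc lo hi → g d = 0) →
    ‖∑ d ∈ Ioc lo hi, ((g d : ℝ) : ℂ) * Psi X k f (d * m)‖ ^ (2 ^ k) ≤
      CB k * ((L : ℝ) * X) ^ (2 ^ k - 1) * X * (1 / (H : ℝ) ^ k) *
        ∑ j ∈ bxS k H, |∑ d ∈ Ioc lo hi, ∏ w : Finset (Fin k), g (d + sgb (fun i => (k : ℤ) - i) j w)| := by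
  intro X m H L hX hm hH hHL hmH f hf lo hi hL g hg
  have hX' : (0 : ℝ) < X := by exact_mod_cast hX
  have hL' : (0 : ℝ) < L := by exact_mod_cast (lt_of_lt_of_le (Nat.lt_of_lt_of_le Nat.zero_lt_one hH) hHL)
  have hH' : (0 : ℝ) < H := by exact_mod_cast hH
  have hk' : (0 : ℝ) ≤ k := Nat.cast_nonneg k
  set N : ℝ := 8 * (k + 1) * L * X with hN
  have hN0 : 0 < N := by positivity
  have hE := E1_elim (G := ℤ × ℤ) (Ioc lo hi ×ˢ Ioo (-(2 * X : ℤ)) (2 * X))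
    (Ioc (lo - k * H) hi ×ˢ Ioo (-(2 * X : ℤ) - m * H) (2 * X)) N (E1_card X k m H L lo hi hL hHL hmH hX) hN0 H hH k
    (fun i => ((k : ℤ) - i, (m : ℤ))) (fun i z => f i (z.1 * m - ((k : ℤ) - i) * z.2))
    (fun z => ((g z.1 : ℝ) : ℂ) * (if z.2 ∈ Ioo (-(2 * X : ℤ)) (2 * X) then 1 else 0))
    (fun i z => (hf i i.2).le _)
    (fun i z => by
      simp only [Prod.fst_add, Prod.snd_add]
      congr 1
      ring)
    (fun z hz => by
      rw [Finset.mem_product, not_and_or] at hz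
      rcases hz with hz | hz
      · simp [hg z.1 hz]
      · simp [hz])
    (fun i z h hh hz => by
      have s1 : (h • (((k : ℤ) - i, (m : ℤ)) : ℤ × ℤ)).1 = h * ((k : ℤ) - i) := by
        rw [Prod.smul_fst, nsmul_eq_mul]
      have s2 : (h • (((k : ℤ) - i, (m : ℤ)) : ℤ × ℤ)).2 = h * m := by
        rw [Prod.smul_snd, nsmul_eq_mul]
      rw [Finset.mem_product, Finset.mem_Ioc, Finset.mem_Ioo] at hz ⊢
      rw [Prod.fst_add, Prod.snd_add, s1, s2] at hz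
      have hi1 : (i : ℤ) < k := by exact_mod_cast i.2
      have hi0 : (0 : ℤ) ≤ i := by positivity
      have hh0 : (0 : ℤ) ≤ h := by positivity
      have hhH : (h : ℤ) ≤ H := by exact_mod_cast hh.le
      have e1 : (0 : ℤ) ≤ h * ((k : ℤ) - i) := mul_nonneg hh0 (by linarith)
      have e2 : (h : ℤ) * ((k : ℤ) - i) ≤ k * H := by
        calc (h : ℤ) * ((k : ℤ) - i) ≤ H * k := mul_le_mul hhH (by linarith) (by linarith) (by positivity)
          _ = k * H := mul_comm _ _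
      have e3 : (0 : ℤ) ≤ h * m := by positivity
      have e4 : (h : ℤ) * m ≤ m * H := by
        calc (h : ℤ) * m ≤ H * m := mul_le_mul_of_nonneg_right hhH (by positivity)
          _ = m * H := mul_comm _ _
      refine ⟨⟨by linarith [hz.1.1], by linarith [hz.1.2]⟩, ⟨by linarith [hz.2.1], by linarith [hz.2.2]⟩⟩)
  rw [E1_left] at hE
  set S : ℝ := ‖∑ d ∈ Ioc lo hi, ((g d : ℝ) : ℂ) * Psi X k f (d * m)‖ with hS
  set T : (Fin k → ℤ) → ℝ := fun j => |∑ d ∈ Ioc lo hi, ∏ w : Finset (Fin k), g (d + sgb (fun i => (k : ℤ) - i) j w)| with hT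
  have hR : (S / N) ^ (2 ^ k) ≤ 2 ^ (2 ^ k) / (H : ℝ) ^ k * ((∑ j ∈ bxS k H, T j) * (4 * X) / N) := by
    refine hE.trans (mul_le_mul_of_nonneg_left ?_ (by positivity))
    rw [Finset.sum_mul, Finset.sum_div]
    refine Finset.sum_le_sum fun j _ => ?_
    exact div_le_div_of_nonneg_right (E1_right X k m lo hi g hX j) hN0.le
  have hpow : 2 ^ k - 1 + 1 = 2 ^ k := Nat.sub_add_cancel (Nat.one_le_two_pow)
  have hSN : S ^ (2 ^ k) = (S / N) ^ (2 ^ k) * N ^ (2 ^ k) := by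
    rw [div_pow, div_mul_cancel₀]
    positivity
  rw [hSN]
  have hT0 : ∀ j, 0 ≤ T j := fun j => abs_nonneg _
  have hC : 4 * 2 ^ (2 ^ k) * (8 * ((k : ℝ) + 1)) ^ (2 ^ k - 1) ≤ CB k := by
    unfold CB
    refine mul_le_mul_of_nonneg_left ?_ (by positivity)
    exact pow_le_pow_right₀ (by linarith) (Nat.sub_le _ _)
  have hrest : 0 ≤ ((L : ℝ) * X) ^ (2 ^ k - 1) * X * (1 / (H : ℝ) ^ k) * ∑ j ∈ bxS k H, T j := by
    have := Finset.sum_nonneg fun j (_ : j ∈ bxS k H) => hT0 j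
    positivity
  refine le_trans ?_ (le_trans (mul_le_mul_of_nonneg_right hC hrest) (le_of_eq (by ring)))
  calc (S / N) ^ (2 ^ k) * N ^ (2 ^ k) ≤
      2 ^ (2 ^ k) / (H : ℝ) ^ k * ((∑ j ∈ bxS k H, T j) * (4 * X) / N) * N ^ (2 ^ k) :=
        mul_le_mul_of_nonneg_right hR (by positivity)
    _ = 2 ^ (2 ^ k) / (H : ℝ) ^ k * ((∑ j ∈ bxS k H, T j) * (4 * X)) * N ^ (2 ^ k - 1) := by
        rw [← hpow, pow_succ (n := 2 ^ k - 1) (a := N)]
        rw [hpow]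
        field_simp
    _ = 4 * 2 ^ (2 ^ k) * (8 * ((k : ℝ) + 1)) ^ (2 ^ k - 1) * (((L : ℝ) * X) ^ (2 ^ k - 1) * X *
        (1 / (H : ℝ) ^ k) * ∑ j ∈ bxS k H, T j) := by
        have : N ^ (2 ^ k - 1) = (8 * ((k : ℝ) + 1)) ^ (2 ^ k - 1) * ((L : ℝ) * X) ^ (2 ^ k - 1) := by
          rw [← mul_pow]
          congr 1
          rw [hN]
          ring
        rw [this]
        ring


end Pool.Agent.H44UB
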