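import Pool.Agent.Lib.H44UB.T1

/-!
# H44UB, chunk T4 (S/M): trivial bounds for the functional
-/

open Finset

namespace Pool.Agent.H44UB

open Pool.Agent.HUK
open Pool.Agent.H16U
open Pool.Agent.Lib.H81A (af muV one1 logf)

/-- Proof. `psi_bd`: `‖Psi‖ ≤ 4X`. For `1 ≤ n ≤ N = 2kX`: `|F n| ≤ T * (M τ_j(n) / n)`: if `F n = 0` the right side is `≥ 0`; otherwise `n ≤ T` (`hs`), `1 ≤ T / n`. Sum (`norm_sum_le`, `tau_sum`). -/
theorem LF_BD (X k : ℕ) (f : ℕ → ℤ → ℂ) (hf : ∀ j, j < k → Bdd X (f j)) (F : ArithmeticFunction ℝ) (j : ℕ) (M T : ℝ) (hM : 0 ≤ M)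
    (hT : 0 ≤ T) (hF : BD (2 * k * X) j M F) (hs : SP (2 * k * X) T F) :
    ‖LF X k f F‖ ≤ T * M * QQ (2 * k * X) ^ j * (4 * X) := by
  unfold LF
  refine (norm_sum_le _ _).trans ?_
  have h1 : ∀ n ∈ Icc 1 (2 * k * X), ‖((F n : ℝ) : ℂ) * Psi X k f (n : ℤ)‖ ≤
      T * M * (4 * X) * ((one1 ^ j : ArithmeticFunction ℝ) n / (n : ℝ)) := by
    intro n hn
    rw [mem_Icc] at hn
    have hn1 : (1 : ℝ) ≤ n := by exact_mod_cast hn.1
    have hn0 : (0 : ℝ) < n := by linarith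
    have ht := tau_nonneg j n
    rw [norm_mul, Complex.norm_real, Real.norm_eq_abs]
    have hp := psi_bd X k f hf n
    by_cases h0 : F n = 0
    · rw [h0, abs_zero, zero_mul]
      positivity
    · have h2 : (n : ℝ) ≤ T := hs n hn.1 hn.2 h0
      have h3 : |F n| ≤ T * (M * ((one1 ^ j : ArithmeticFunction ℝ) n / (n : ℝ))) := by
        refine (hF n hn.1 hn.2).trans ?_
        have h4 : M * (one1 ^ j : ArithmeticFunction ℝ) n =
            (n : ℝ) * (M * ((one1 ^ j : ArithmeticFunction ℝ) n / (n : ℝ))) := by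
          field_simp
        rw [h4]
        exact mul_le_mul_of_nonneg_right h2 (by positivity)
      calc |F n| * ‖Psi X k f (n : ℤ)‖
          ≤ T * (M * ((one1 ^ j : ArithmeticFunction ℝ) n / (n : ℝ))) * (4 * X) :=
            mul_le_mul h3 hp (norm_nonneg _) (by positivity)
        _ = _ := by ring
  refine (Finset.sum_le_sum h1).trans ?_
  rw [← Finset.mul_sum]
  have h5 := tau_sum j (2 * k * X)
  calc T * M * (4 * X) * ∑ i ∈ Icc 1 (2 * k * X), (one1 ^ j : ArithmeticFunction ℝ) i / (i : ℝ)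
      ≤ T * M * (4 * X) * QQ (2 * k * X) ^ j := mul_le_mul_of_nonneg_left h5 (by positivity)
    _ = _ := by ring

/-- Proof. `LF_BD` with `T = 2kX`. -/
theorem LF_BD' (X k : ℕ) (f : ℕ → ℤ → ℂ) (hf : ∀ j, j < k → Bdd X (f j)) (F : ArithmeticFunction ℝ) (j : ℕ) (M : ℝ) (hM : 0 ≤ M)
    (hF : BD (2 * k * X) j M F) : ‖LF X k f F‖ ≤ (2 * k * X) * M * QQ (2 * k * X) ^ j * (4 * X) := by
  refine LF_BD X k f hf F j M (2 * k * X) hM (by positivity) hF ?_
  intro n _ hn _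
  exact_mod_cast hn

end Pool.Agent.H44UB
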