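import Pool.Agent.Lib.H44UB.T3
import Pool.Agent.Lib.H44UB.T4

/-!
# H44UB, chunk G1 (M): all factors small, partial products (old proof: `HUK/BH4.lean`)
-/

open Finset

namespace Pool.Agent.H44UB

open Pool.Agent.HUK
open Pool.Agent.H16U
open Pool.Agent.Lib.H81A (af muV one1 logf)

/-- **Products of small factors.** Proof. As `HUK.greedy`. Induction on `l`, `S` and `a` arbitrary. Empty list: `S * 1 = S`, `LF_BD` with `BD N K (M^K) S` (`BD.mono`). `g :: l`:
`S * (g * l.prod) = lowT T (S * g) * l.prod + highT T (S * g) * l.prod` (`low_add_high`), `LF_add`. First part: induction hypothesis for `lowT T (S * g)` (`low_SP`, `BD_low`,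
`BD N (a+1) (M^(a+1))` by `BD_mul`) and `a + 1`. Second part: `t2` with `F = highT T (S * g)` (`BD N (a+1) (M^(a+1))`, so `BD N K (M^K)` by `BD.mono`; support `high_supp`) and `G = l.prod` (`BD_list`, `BD.mono`): at most `E`. -/
theorem greedyU (X k : ℕ) (f : ℕ → ℤ → ℂ) (hf : ∀ j, j < k → Bdd X (f j)) (T Y E M : ℝ) (K : ℕ) (hT : 1 ≤ T) (hM : 1 ≤ M)
    (t2 : ∀ F G, BD (2 * k * X) K (M ^ K) F → BD (2 * k * X) K (M ^ K) G →
      (∀ n : ℕ, 1 ≤ n → n ≤ 2 * k * X → F n ≠ 0 → T < n ∧ (n : ℝ) ≤ T * Y) → ‖LF X k f (F * G)‖ ≤ E) :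
    ∀ (l : List (ArithmeticFunction ℝ)) (S : ArithmeticFunction ℝ) (a : ℕ),
      (∀ g ∈ l, BD (2 * k * X) 1 M g ∧ SP (2 * k * X) Y g) → BD (2 * k * X) a (M ^ a) S → SP (2 * k * X) T S →
      a + l.length ≤ K → ‖LF X k f (S * l.prod)‖ ≤ l.length * E + T * M ^ K * QQ (2 * k * X) ^ K * (4 * X) := by
  intro l
  have hM0 : 0 ≤ M := by linarith
  induction l with
  | nil =>
    intro S a _ hS hSP ha
    rw [List.length_nil, Nat.add_zero] at ha
    rw [List.prod_nil, mul_one, List.length_nil, Nat.cast_zero, zero_mul, zero_add]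
    exact LF_BD X k f hf S K (M ^ K) T (by positivity) (by linarith)
      (BD.mono hS ha (pow_le_pow_right₀ hM ha) (by positivity)) hSP
  | cons g l ih =>
    intro S a hl hS hSP ha
    rw [List.length_cons] at ha
    have hg := hl g (List.mem_cons_self)
    have hl' : ∀ g' ∈ l, BD (2 * k * X) 1 M g' ∧ SP (2 * k * X) Y g' :=
      fun g' hg' => hl g' (List.mem_cons_of_mem _ hg')
    have hSg : BD (2 * k * X) (a + 1) (M ^ (a + 1)) (S * g) := by
      rw [pow_succ]
      exact BD_mul hS hg.1 (by positivity) hM0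
    have hpow : 0 ≤ M ^ (a + 1) := by positivity
    have e1 : S * (g :: l).prod = lowT T (S * g) * l.prod + highT T (S * g) * l.prod := by
      rw [List.prod_cons, ← add_mul, low_add_high, mul_assoc]
    rw [e1, LF_add]
    have hlow := ih (lowT T (S * g)) (a + 1) hl' (BD_low hSg hpow).1 (low_SP _ _ _) (by omega)
    have hhigh : ‖LF X k f (highT T (S * g) * l.prod)‖ ≤ E := by
      refine t2 _ _ (BD.mono (BD_low hSg hpow).2 (by omega) (pow_le_pow_right₀ hM (by omega))
        (by positivity)) (BD.mono (BD_list hM0 l fun g' hg' => (hl' g' hg').1) (by omega)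
        (pow_le_pow_right₀ hM (by omega)) (by positivity)) ?_
      exact high_supp (by linarith) hSP hg.2
    have hlc : (((g :: l).length : ℕ) : ℝ) = l.length + 1 := by simp
    rw [hlc]
    calc ‖LF X k f (lowT T (S * g) * l.prod) + LF X k f (highT T (S * g) * l.prod)‖
        ≤ ‖LF X k f (lowT T (S * g) * l.prod)‖ + ‖LF X k f (highT T (S * g) * l.prod)‖ :=
          norm_add_le _ _
      _ ≤ (l.length * E + T * M ^ K * QQ (2 * k * X) ^ K * (4 * X)) + E := add_le_add hlow hhigh
      _ = (l.length + 1) * E + T * M ^ K * QQ (2 * k * X) ^ K * (4 * X) := by ring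

end Pool.Agent.H44UB
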