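import Pool.Agent.Lib.H44UB.Defs

/-!
# H44UB, chunk T1 (S/M, only Mathlib): divisor functions `one1 ^ j`
-/

open Finset

namespace Pool.Agent.H44UB

open Pool.Agent.HUK
open Pool.Agent.H16U
open Pool.Agent.Lib.H81A (af muV one1 logf)

private theorem T1_one (n : ℕ) : one1 n = if n = 0 then 0 else 1 := rfl

private theorem T1_one_nonneg (n : ℕ) : 0 ≤ one1 n := by
  rw [T1_one]
  split_ifs <;> norm_num

private theorem T1_one_pos {n : ℕ} (hn : n ≠ 0) : one1 n = 1 := by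
  rw [T1_one, if_neg hn]

/-- Proof. Induction on `j` (`pow_succ`, `ArithmeticFunction.mul_apply`, sums and products of non-negative numbers; `one1 n` is `0` or `1`). -/
theorem tau_nonneg (j n : ℕ) : 0 ≤ (one1 ^ j : ArithmeticFunction ℝ) n := by
  induction j generalizing n with
  | zero =>
    rw [pow_zero, ArithmeticFunction.one_apply]
    split_ifs <;> norm_num
  | succ j ih =>
    rw [pow_succ, ArithmeticFunction.mul_apply]
    exact Finset.sum_nonneg fun x _ => mul_nonneg (ih _) (T1_one_nonneg _)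

/-- Proof. `pow_one`, `af_apply`. -/
theorem tau_one (n : ℕ) (hn : 1 ≤ n) : (one1 ^ 1 : ArithmeticFunction ℝ) n = 1 := by
  rw [pow_one]
  exact T1_one_pos (by omega)

/-- Proof. It is enough to treat `j = i + 1` (`Nat.le_induction`): for `n = 0` both sides are `0`, for `n ≥ 1`
`(one1 ^ (i+1)) n = ∑_{(x,y)} (one1 ^ i) x * one1 y` contains the term `(n, 1)`, all others are `≥ 0` (`Finset.single_le_sum`). -/
theorem tau_mono {i j : ℕ} (h : i ≤ j) (n : ℕ) : (one1 ^ i : ArithmeticFunction ℝ) n ≤ (one1 ^ j : ArithmeticFunction ℝ) n := by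
  induction j, h using Nat.le_induction with
  | base => exact le_refl _
  | succ j _ ih =>
    refine ih.trans ?_
    rcases Nat.eq_zero_or_pos n with rfl | hn
    · rw [ArithmeticFunction.map_zero, ArithmeticFunction.map_zero]
    · rw [pow_succ, ArithmeticFunction.mul_apply]
      have hmem : (n, 1) ∈ n.divisorsAntidiagonal :=
        Nat.mem_divisorsAntidiagonal.2 ⟨by rw [mul_one], by omega⟩
      have h1 := Finset.single_le_sum
        (f := fun x : ℕ × ℕ => (one1 ^ j : ArithmeticFunction ℝ) x.1 * one1 x.2)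
        (fun x _ => mul_nonneg (tau_nonneg j x.1) (T1_one_nonneg x.2)) hmem
      refine le_trans (le_of_eq ?_) h1
      show (one1 ^ j : ArithmeticFunction ℝ) n = (one1 ^ j : ArithmeticFunction ℝ) n * one1 1
      rw [T1_one_pos one_ne_zero, mul_one]

theorem QQ_one_le (N : ℕ) : 1 ≤ QQ N := by
  have h : 0 ≤ Real.log ((N : ℝ) + 1) := Real.log_nonneg (by
    have := Nat.cast_nonneg (α := ℝ) N
    linarith)
  rw [QQ]
  linarith

private theorem T1_anti {N m : ℕ} (hm : m ∈ Icc 1 N) :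
    m.divisorsAntidiagonal = (Icc 1 N ×ˢ Icc 1 N).filter fun x => x.1 * x.2 = m := by
  rw [Finset.mem_Icc] at hm
  ext ⟨a, b⟩
  rw [Nat.mem_divisorsAntidiagonal, Finset.mem_filter, Finset.mem_product, Finset.mem_Icc,
    Finset.mem_Icc]
  constructor
  · rintro ⟨h1, h2⟩
    have ha : a ∣ m := ⟨b, h1.symm⟩
    have hb : b ∣ m := ⟨a, by rw [mul_comm]; exact h1.symm⟩
    have ha0 : a ≠ 0 := by
      rintro rfl
      exact h2 (by rw [← h1, zero_mul])
    have hb0 : b ≠ 0 := by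
      rintro rfl
      exact h2 (by rw [← h1, mul_zero])
    exact ⟨⟨⟨by omega, (Nat.le_of_dvd (by omega) ha).trans hm.2⟩,
      ⟨by omega, (Nat.le_of_dvd (by omega) hb).trans hm.2⟩⟩, h1⟩
  · rintro ⟨-, h1⟩
    exact ⟨h1, by omega⟩

/-- Proof. Induction on `j`. `j = 0`: `∑ (1 m)/m ≤ 1` (only `m = 1`). Step: `(one1^(j+1)) m / m = ∑_{(x,y), x y = m} ((one1^j) x / x) (1 / y)`; the pairs `(x, y)` with
`x y = m ∈ [1, N]` are different pairs in `[1,N] × [1,N]` and all terms are `≥ 0`, so the sum is at most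
`(∑_{x ≤ N} (one1^j) x / x) (∑_{y ≤ N} 1/y) ≤ (QQ N)^j (QQ N)` (`HUK.b16_harm : ∑ m ∈ Icc 1 Y, 1/m ≤ 1 + log (Y+1)`, which is `QQ Y`). -/
theorem tau_sum (j N : ℕ) : ∑ m ∈ Icc 1 N, (one1 ^ j : ArithmeticFunction ℝ) m / (m : ℝ) ≤ QQ N ^ j := by
  induction j with
  | zero =>
    rw [pow_zero, pow_zero]
    have h1 : ∀ m ∈ Icc 1 N, (1 : ArithmeticFunction ℝ) m / (m : ℝ) ≤ if m = 1 then 1 else 0 := by
      intro m _
      rw [ArithmeticFunction.one_apply]
      split_ifs with h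
      · rw [h]
        norm_num
      · rw [zero_div]
    refine (Finset.sum_le_sum h1).trans ?_
    rw [Finset.sum_ite_eq' (Icc 1 N) 1 (fun _ => (1 : ℝ))]
    split_ifs <;> norm_num
  | succ j ih =>
    have h1 : ∀ m ∈ Icc 1 N, (one1 ^ (j + 1) : ArithmeticFunction ℝ) m / (m : ℝ) =
        ∑ x ∈ Icc 1 N ×ˢ Icc 1 N, if x.1 * x.2 = m then
          (one1 ^ j : ArithmeticFunction ℝ) x.1 / (x.1 : ℝ) * (1 / (x.2 : ℝ)) else 0 := by
      intro m hm
      rw [pow_succ, ArithmeticFunction.mul_apply, T1_anti hm, Finset.sum_div, ← Finset.sum_filter]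
      refine Finset.sum_congr rfl fun x hx => ?_
      rw [Finset.mem_filter, Finset.mem_product, Finset.mem_Icc, Finset.mem_Icc] at hx
      have ha : (x.1 : ℝ) ≠ 0 := Nat.cast_ne_zero.2 (by omega)
      have hb : (x.2 : ℝ) ≠ 0 := Nat.cast_ne_zero.2 (by omega)
      rw [T1_one_pos (by omega), mul_one, ← hx.2, Nat.cast_mul]
      field_simp
    rw [Finset.sum_congr rfl h1, Finset.sum_comm]
    have h2 : ∀ x ∈ Icc 1 N ×ˢ Icc 1 N, (∑ m ∈ Icc 1 N, if x.1 * x.2 = m then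
          (one1 ^ j : ArithmeticFunction ℝ) x.1 / (x.1 : ℝ) * (1 / (x.2 : ℝ)) else 0) ≤
        (one1 ^ j : ArithmeticFunction ℝ) x.1 / (x.1 : ℝ) * (1 / (x.2 : ℝ)) := by
      intro x _
      have h3 : 0 ≤ (one1 ^ j : ArithmeticFunction ℝ) x.1 / (x.1 : ℝ) * (1 / (x.2 : ℝ)) :=
        mul_nonneg (div_nonneg (tau_nonneg j _) (Nat.cast_nonneg _))
          (div_nonneg zero_le_one (Nat.cast_nonneg _))
      rw [Finset.sum_ite_eq (Icc 1 N) (x.1 * x.2)
        (fun _ => (one1 ^ j : ArithmeticFunction ℝ) x.1 / (x.1 : ℝ) * (1 / (x.2 : ℝ)))]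
      split_ifs
      · exact le_refl _
      · exact h3
    refine (Finset.sum_le_sum h2).trans ?_
    have h5 : ∑ x ∈ Icc 1 N ×ˢ Icc 1 N,
        (one1 ^ j : ArithmeticFunction ℝ) x.1 / (x.1 : ℝ) * (1 / (x.2 : ℝ)) =
        (∑ m ∈ Icc 1 N, (one1 ^ j : ArithmeticFunction ℝ) m / (m : ℝ)) *
          ∑ y ∈ Icc 1 N, 1 / (y : ℝ) := by
      rw [Finset.sum_mul_sum, Finset.sum_product]
    rw [h5, pow_succ]
    have h4 : ∑ y ∈ Icc 1 N, 1 / (y : ℝ) ≤ QQ N := b16_harm N
    exact mul_le_mul ih h4 (Finset.sum_nonneg fun y _ => div_nonneg zero_le_one (Nat.cast_nonneg _))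
      (pow_nonneg (zero_le_one.trans (QQ_one_le N)) j)

end Pool.Agent.H44UB
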