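import Pool.Agent.Lib.H44UB.T1

/-!
# H44UB, chunk T2 (M, only Mathlib): `τ_a τ_b ≤ τ_{ab}`
-/

open Finset

namespace Pool.Agent.H44UB

open Pool.Agent.HUK
open Pool.Agent.H16U
open Pool.Agent.Lib.H81A (af muV one1 logf)

private theorem T2_one1 (n : ℕ) (hn : n ≠ 0) : one1 n = 1 := by
  unfold one1
  rw [Pool.Agent.Lib.H81A.af_apply _ hn]

private theorem T2_succ (b n : ℕ) :
    (one1 ^ (b + 1) : ArithmeticFunction ℝ) n = ∑ m ∈ n.divisors, (one1 ^ b : ArithmeticFunction ℝ) m := by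
  rw [pow_succ, ArithmeticFunction.mul_apply, ← Nat.sum_divisorsAntidiagonal fun x _ => (one1 ^ b : ArithmeticFunction ℝ) x]
  refine Finset.sum_congr rfl fun x hx => ?_
  have h := Nat.mem_divisorsAntidiagonal.1 hx
  rw [T2_one1 x.2 (by rintro h0; rw [h0, mul_zero] at h; exact h.2 h.1.symm), mul_one]

/-- Proof. Induction on `b`. `b = 0`: `(1 : ArithmeticFunction) (d e)` is `1` iff `d e = 1` iff `d = 1` and `e = 1`. Step (`pow_succ`, `ArithmeticFunction.mul_apply`; or use
`∑ over divisors`): `τ_{b+1}(d e) = ∑_{m ∣ d e} τ_b(m)`. The map `m ↦ (gcd (m, d), m / gcd (m, d))` is injective from the divisors of `d e` to (divisors of `d`) × (divisors of `e`)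
(`m / gcd(m,d)` divides `e`: `Nat.Coprime.dvd_of_dvd_mul_left` for `m/g` and `d/g` coprime, `m/g ∣ (d/g) e`), and the product of the image is `m`. All terms are `≥ 0`, so the sum is at most
`∑_{m₁ ∣ d} ∑_{m₂ ∣ e} τ_b(m₁ m₂) ≤ ∑∑ τ_b(m₁) τ_b(m₂) = τ_{b+1}(d) τ_{b+1}(e)`. (Alternatively: `Nat.divisors_mul : divisors (m * n) = divisors m * divisors n` (pointwise product) and a sum over an image is
at most the sum over the product set.) -/
theorem tau_sub (b d e : ℕ) (hd : 1 ≤ d) (he : 1 ≤ e) :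
    (one1 ^ b : ArithmeticFunction ℝ) (d * e) ≤ (one1 ^ b : ArithmeticFunction ℝ) d * (one1 ^ b : ArithmeticFunction ℝ) e := by
  induction b generalizing d e with
  | zero =>
    simp only [pow_zero, ArithmeticFunction.one_apply]
    by_cases h : d * e = 1
    · obtain ⟨h1, h2⟩ := mul_eq_one.1 h
      rw [if_pos h, if_pos h1, if_pos h2]
      norm_num
    · rw [if_neg h]
      positivity
  | succ b ih =>
    rw [T2_succ, T2_succ, T2_succ, Nat.divisors_mul, Finset.mul_def]
    refine (Finset.sum_image_le_of_nonneg fun u _ => tau_nonneg b u).trans ?_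
    rw [Finset.sum_product, Finset.sum_mul]
    refine Finset.sum_le_sum fun x hx => ?_
    rw [Finset.mul_sum]
    refine Finset.sum_le_sum fun y hy => ?_
    exact ih x y (Nat.pos_of_mem_divisors hx) (Nat.pos_of_mem_divisors hy)

/-- Proof. Induction on `a`. `a = 0`: both sides are `0` unless `n = 1`, and `(one1 ^ b) 1 = 1`. Step: `τ_{a+1}(n) τ_b(n) = ∑_{(x,y), x y = n} τ_a(x) τ_b(n) ≤ ∑ τ_a(x) τ_b(x) τ_b(y)` (`tau_sub`)
`≤ ∑ τ_{ab}(x) τ_b(y) = τ_{ab+b}(n)` (`one1 ^ ((a+1) b) = one1 ^ (a b) * one1 ^ b`). -/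
theorem tau_mul (a b n : ℕ) (hn : 1 ≤ n) :
    (one1 ^ a : ArithmeticFunction ℝ) n * (one1 ^ b : ArithmeticFunction ℝ) n ≤ (one1 ^ (a * b) : ArithmeticFunction ℝ) n := by
  induction a generalizing n with
  | zero =>
    rw [zero_mul, pow_zero, ArithmeticFunction.one_apply]
    by_cases h : n = 1
    · subst h
      rw [if_pos rfl, one_mul]
      have h1 : ∀ c : ℕ, (one1 ^ c : ArithmeticFunction ℝ) 1 = 1 := by
        intro c
        induction c with
        | zero => simp
        | succ c ihc =>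
          rw [T2_succ]
          simpa using ihc
      rw [h1]
    · rw [if_neg h, zero_mul]
  | succ a ih =>
    have hn0 : n ≠ 0 := by omega
    have e1 : (one1 ^ ((a + 1) * b) : ArithmeticFunction ℝ) = one1 ^ (a * b) * one1 ^ b := by
      rw [← pow_add]
      ring_nf
    rw [e1, pow_succ, ArithmeticFunction.mul_apply, ArithmeticFunction.mul_apply, Finset.sum_mul]
    refine Finset.sum_le_sum fun x hx => ?_
    obtain ⟨hx1, hx2⟩ := Nat.mem_divisorsAntidiagonal.1 hx
    have h1 : 1 ≤ x.1 := Nat.one_le_iff_ne_zero.2 (by rintro h0; rw [h0, zero_mul] at hx1; exact hx2 hx1.symm)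
    have h2 : 1 ≤ x.2 := Nat.one_le_iff_ne_zero.2 (by rintro h0; rw [h0, mul_zero] at hx1; exact hx2 hx1.symm)
    rw [T2_one1 x.2 (by omega), mul_one, ← hx1]
    have h3 := tau_sub b x.1 x.2 h1 h2
    have h4 := ih x.1 h1
    have n1 := tau_nonneg a x.1
    have n2 := tau_nonneg b x.2
    calc (one1 ^ a : ArithmeticFunction ℝ) x.1 * (one1 ^ b : ArithmeticFunction ℝ) (x.1 * x.2)
        ≤ (one1 ^ a : ArithmeticFunction ℝ) x.1 *
          ((one1 ^ b : ArithmeticFunction ℝ) x.1 * (one1 ^ b : ArithmeticFunction ℝ) x.2) :=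
          mul_le_mul_of_nonneg_left h3 n1
      _ = (one1 ^ a : ArithmeticFunction ℝ) x.1 * (one1 ^ b : ArithmeticFunction ℝ) x.1 *
          (one1 ^ b : ArithmeticFunction ℝ) x.2 := by ring
      _ ≤ _ := mul_le_mul_of_nonneg_right h4 n2

end Pool.Agent.H44UB
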