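import Pool.Agent.Lib.H44UB.T2

/-!
# H44UB, chunk T3 (M): the class `BD` (see `HUK/BH2.lean` for the old proofs with `BN`)
-/

open Finset

namespace Pool.Agent.H44UB

open Pool.Agent.HUK
open Pool.Agent.H16U
open Pool.Agent.Lib.H81A (af muV one1 logf)

/-- Proof. `|F n| ≤ M τ_i(n) ≤ M' τ_i(n) ≤ M' τ_j(n)` (`tau_nonneg`, `tau_mono`). -/
theorem BD.mono {N i j : ℕ} {M M' : ℝ} {F : ArithmeticFunction ℝ} (h : BD N i M F) (hij : i ≤ j) (hM : M ≤ M') (hM0 : 0 ≤ M') :
    BD N j M' F := by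
  intro n h1 h2
  refine (h n h1 h2).trans ?_
  exact (mul_le_mul_of_nonneg_right hM (tau_nonneg i n)).trans
    (mul_le_mul_of_nonneg_left (tau_mono hij n) hM0)

/-- Proof. `tau_one`. -/
theorem BD_of_BN {N : ℕ} {M : ℝ} {F : ArithmeticFunction ℝ} (h : BN N M F) : BD N 1 M F := by
  intro n h1 h2
  rw [tau_one n h1, mul_one]
  exact h n h1 h2

/-- The unit. Proof. `one1 ^ 0 = 1`. -/
theorem BD_unit (N : ℕ) : BD N 0 1 (1 : ArithmeticFunction ℝ) := by
  intro n _ _
  rw [pow_zero, one_mul, ArithmeticFunction.one_apply]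
  split_ifs <;> simp

/-- Proof. `|(F * G) n| ≤ ∑_{(x,y)} |F x| |G y| ≤ M M' ∑ τ_i(x) τ_j(y) = M M' τ_{i+j}(n)` (`pow_add`, `ArithmeticFunction.mul_apply`; `HUK.bh2_mem` for the ranges of `x`, `y`). -/
theorem BD_mul {N i j : ℕ} {M M' : ℝ} {F G : ArithmeticFunction ℝ} (hF : BD N i M F) (hG : BD N j M' G) (hM : 0 ≤ M) (hM' : 0 ≤ M') :
    BD N (i + j) (M * M') (F * G) := by
  intro n h1 h2
  rw [ArithmeticFunction.mul_apply, pow_add, ArithmeticFunction.mul_apply]
  refine (Finset.abs_sum_le_sum_abs _ _).trans ?_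
  rw [Finset.mul_sum]
  refine Finset.sum_le_sum fun x hx => ?_
  obtain ⟨h4, h5, h6, h7⟩ := bh2_mem h1 hx
  rw [abs_mul]
  have h8 := mul_le_mul (hF _ h4 (h6.trans h2)) (hG _ h5 (h7.trans h2)) (abs_nonneg _)
    (mul_nonneg hM (tau_nonneg i x.1))
  refine h8.trans (le_of_eq ?_)
  ring

/-- Proof. Induction on the list (`BD_mul`, `BD_unit`). -/
theorem BD_list {N : ℕ} {M : ℝ} (hM : 0 ≤ M) (l : List (ArithmeticFunction ℝ)) (hl : ∀ g ∈ l, BD N 1 M g) :
    BD N l.length (M ^ l.length) l.prod := by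
  induction l with
  | nil =>
    rw [List.length_nil, pow_zero, List.prod_nil]
    exact BD_unit N
  | cons g l ih =>
    have h1 := BD_mul (hl g List.mem_cons_self)
      (ih fun g' hg' => hl g' (List.mem_cons_of_mem _ hg')) hM (pow_nonneg hM _)
    rw [List.prod_cons, List.length_cons, pow_succ', add_comm l.length 1]
    exact h1

/-- Proof. Induction, or `BD_list` for `List.replicate n F`. -/
theorem BD_pow {N : ℕ} {M : ℝ} (hM : 0 ≤ M) {F : ArithmeticFunction ℝ} (hF : BD N 1 M F) (n : ℕ) : BD N n (M ^ n) (F ^ n) := by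
  have h1 := BD_list hM (List.replicate n F) (fun g hg => by rw [List.eq_of_mem_replicate hg]; exact hF)
  rw [List.length_replicate, List.prod_replicate] at h1
  exact h1

/-- Proof. As `HUK.low_BN`: the values are `F n` or `0` (`tau_nonneg`). -/
theorem BD_low {N j : ℕ} {M T : ℝ} {F : ArithmeticFunction ℝ} (h : BD N j M F) (hM : 0 ≤ M) :
    BD N j M (lowT T F) ∧ BD N j M (highT T F) := by
  constructor
  · intro n h1 h2
    unfold lowT
    rw [Pool.Agent.Lib.H81A.af_apply _ (by omega)]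
    split_ifs
    · exact h n h1 h2
    · rw [abs_zero]
      exact mul_nonneg hM (tau_nonneg j n)
  · intro n h1 h2
    unfold highT
    rw [Pool.Agent.Lib.H81A.af_apply _ (by omega)]
    split_ifs
    · rw [abs_zero]
      exact mul_nonneg hM (tau_nonneg j n)
    · exact h n h1 h2

/-- Proof. As `HUK.low_add_high`. -/
theorem keep_add_cut (R : ℝ) (F : ArithmeticFunction ℝ) : keepR R F + cutR R F = F := by
  refine ArithmeticFunction.ext fun n => ?_
  rcases Nat.eq_zero_or_pos n with rfl | hn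
  · rw [ArithmeticFunction.map_zero, ArithmeticFunction.map_zero]
  · rw [ArithmeticFunction.add_apply]
    unfold keepR cutR
    rw [Pool.Agent.Lib.H81A.af_apply _ hn.ne', Pool.Agent.Lib.H81A.af_apply _ hn.ne']
    split_ifs <;> simp

theorem keep_BN {N : ℕ} {R : ℝ} (hR : 0 ≤ R) (F : ArithmeticFunction ℝ) : BN N R (keepR R F) := by
  intro n h1 _
  unfold keepR
  rw [Pool.Agent.Lib.H81A.af_apply _ (by omega)]
  split_ifs with h
  · exact h
  · rw [abs_zero]
    exact hR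

theorem keep_BD {N j : ℕ} {M R : ℝ} {F : ArithmeticFunction ℝ} (h : BD N j M F) (hM : 0 ≤ M) : BD N j M (keepR R F) := by
  intro n h1 h2
  unfold keepR
  rw [Pool.Agent.Lib.H81A.af_apply _ (by omega)]
  split_ifs
  · exact h n h1 h2
  · rw [abs_zero]
    exact mul_nonneg hM (tau_nonneg j n)

/-- Proof. If `|F n| > R` then `|F n| ≤ |F n|² / R ≤ M² τ_j(n)² / R ≤ (M²/R) τ_{j²}(n)` (`tau_mul j j n`, `j * j = j ^ 2`), otherwise the value is `0`. -/
theorem cut_BD {N j : ℕ} {M R : ℝ} {F : ArithmeticFunction ℝ} (h : BD N j M F) (hM : 0 ≤ M) (hR : 0 < R) :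
    BD N (j ^ 2) (M ^ 2 / R) (cutR R F) := by
  intro n h1 h2
  unfold cutR
  rw [Pool.Agent.Lib.H81A.af_apply _ (by omega)]
  have hR2 : 0 ≤ M ^ 2 / R := by positivity
  split_ifs with h3
  · rw [abs_zero]
    exact mul_nonneg hR2 (tau_nonneg _ n)
  · have h4 : R < |F n| := not_le.mp h3
    have h5 := h n h1 h2
    have h6 := tau_mul j j n h1
    rw [← sq j] at h6
    have h7 : |F n| * R ≤ |F n| * |F n| := mul_le_mul_of_nonneg_left h4.le (abs_nonneg _)
    have h8 : |F n| * |F n| ≤ (M * (one1 ^ j : ArithmeticFunction ℝ) n) *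
        (M * (one1 ^ j : ArithmeticFunction ℝ) n) :=
      mul_le_mul h5 h5 (abs_nonneg _) (mul_nonneg hM (tau_nonneg j n))
    have h9 : M ^ 2 * ((one1 ^ j : ArithmeticFunction ℝ) n * (one1 ^ j : ArithmeticFunction ℝ) n) ≤
        M ^ 2 * (one1 ^ (j ^ 2) : ArithmeticFunction ℝ) n :=
      mul_le_mul_of_nonneg_left h6 (sq_nonneg M)
    rw [div_mul_eq_mul_div, le_div_iff₀ hR]
    calc |F n| * R ≤ |F n| * |F n| := h7
      _ ≤ (M * (one1 ^ j : ArithmeticFunction ℝ) n) *
        (M * (one1 ^ j : ArithmeticFunction ℝ) n) := h8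
      _ = M ^ 2 * ((one1 ^ j : ArithmeticFunction ℝ) n * (one1 ^ j : ArithmeticFunction ℝ) n) := by ring
      _ ≤ M ^ 2 * (one1 ^ (j ^ 2) : ArithmeticFunction ℝ) n := h9

theorem keep_supp {R : ℝ} {F : ArithmeticFunction ℝ} {n : ℕ} (h : keepR R F n ≠ 0) : F n ≠ 0 := by
  intro h0
  apply h
  rcases Nat.eq_zero_or_pos n with rfl | hn
  · exact ArithmeticFunction.map_zero
  · unfold keepR
    rw [Pool.Agent.Lib.H81A.af_apply _ hn.ne', h0]
    split_ifs <;> rfl

theorem cut_supp {R : ℝ} {F : ArithmeticFunction ℝ} {n : ℕ} (h : cutR R F n ≠ 0) : F n ≠ 0 := by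
  intro h0
  apply h
  rcases Nat.eq_zero_or_pos n with rfl | hn
  · exact ArithmeticFunction.map_zero
  · unfold cutR
    rw [Pool.Agent.Lib.H81A.af_apply _ hn.ne', h0]
    split_ifs <;> rfl

end Pool.Agent.H44UB
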