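import Pool.Agent.Lib.H44UB.T3
import Pool.Agent.Lib.H44UB.T4

/-!
# H44UB, chunk T5 (M): cutting the coefficients at `R`
-/

open Finset

namespace Pool.Agent.H44UB

open Pool.Agent.HUK
open Pool.Agent.H16U
open Pool.Agent.Lib.H81A (af muV one1 logf)

/-- Proof. `F = F₁ + F₂`, `G = G₁ + G₂` with `F₁ = keepR R F`, `F₂ = cutR R F`, the same for `G` (`keep_add_cut`), so `F * G = F₁ * G₁ + F₁ * G₂ + F₂ * G` (`LF_add`).
`F₁ * G₁`: hypothesis `h` (`keep_BN`, `keep_supp`). `F₂ * G`: `cut_BD` and `BD_mul` give `BD N (K² + K) ((M²/R) M) (F₂ * G)`, so `LF_BD'` bounds it by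
`2kX (M³/R) QQ^(K²+K) 4X`. `F₁ * G₂`: `BD N (K + K²) (M (M²/R))`, the same bound. -/
theorem t2_cut (X k : ℕ) (f : ℕ → ℤ → ℂ) (hf : ∀ j, j < k → Bdd X (f j)) (K : ℕ) (M R E : ℝ) (hM : 0 ≤ M) (hR : 0 < R) (P : ℕ → Prop)
    (h : ∀ F G, BN (2 * k * X) R F → BN (2 * k * X) R G → (∀ n : ℕ, 1 ≤ n → n ≤ 2 * k * X → F n ≠ 0 → P n) → ‖LF X k f (F * G)‖ ≤ E)
    (F G : ArithmeticFunction ℝ) (hF : BD (2 * k * X) K M F) (hG : BD (2 * k * X) K M G)
    (hP : ∀ n : ℕ, 1 ≤ n → n ≤ 2 * k * X → F n ≠ 0 → P n) :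
    ‖LF X k f (F * G)‖ ≤ E + 2 * ((2 * k * X) * (M ^ 3 / R) * QQ (2 * k * X) ^ (K ^ 2 + K) * (4 * X)) := by
  have e1 : F * G = keepR R F * keepR R G + keepR R F * cutR R G + cutR R F * G := by
    conv_lhs => rw [← keep_add_cut R F, add_mul]
    congr 1
    conv_lhs => rw [← keep_add_cut R G, mul_add]
  have h1 : ‖LF X k f (keepR R F * keepR R G)‖ ≤ E :=
    h _ _ (keep_BN hR.le F) (keep_BN hR.le G) fun n h1 h2 h3 => hP n h1 h2 (keep_supp h3)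
  have h2 : ‖LF X k f (keepR R F * cutR R G)‖ ≤ (2 * k * X) * (M ^ 3 / R) * QQ (2 * k * X) ^ (K ^ 2 + K) * (4 * X) := by
    have a := LF_BD' X k f hf (keepR R F * cutR R G) (K + K ^ 2) (M * (M ^ 2 / R)) (by positivity)
      (BD_mul (keep_BD hF hM) (cut_BD hG hM hR) hM (by positivity))
    rw [show M * (M ^ 2 / R) = M ^ 3 / R by ring, add_comm K] at a
    exact a
  have h3 : ‖LF X k f (cutR R F * G)‖ ≤ (2 * k * X) * (M ^ 3 / R) * QQ (2 * k * X) ^ (K ^ 2 + K) * (4 * X) := by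
    have a := LF_BD' X k f hf (cutR R F * G) (K ^ 2 + K) (M ^ 2 / R * M) (by positivity)
      (BD_mul (cut_BD hF hM hR) hG (by positivity) hM)
    rw [show M ^ 2 / R * M = M ^ 3 / R by ring] at a
    exact a
  rw [e1, LF_add, LF_add]
  refine (norm_add_le _ _).trans ?_
  have h4 := norm_add_le (LF X k f (keepR R F * keepR R G)) (LF X k f (keepR R F * cutR R G))
  linarith

end Pool.Agent.H44UB
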